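import Pool.Agent.H90.BX.FDef
import Pool.Agent.H86.BX.CasePF

set_option autoImplicit false

/-! Block S (solution format, building the start). -/

namespace Pool.H90BX

open Finset
open scoped Classical

variable {V : Type} [Fintype V] [DecidableEq V] {r : ℕ} {l : LS V} {psi : Fin r → Fin r}
  {part : V → Lb → Fin r}

/-- H3: a solution gives the pairing of the tokens of every clean extension -/
theorem sol_paired (hl : Bdd l) (hpsi : ∀ a, psi (psi a) = a) {BadV : Finset V} {CS : Conf V}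
    {kap : V × Bool → Fin r} (h : Sol l psi part BadV CS kap) (C : Conf V)
    (hC : Ext l BadV (fun v w => ¬ Reg l psi part v w) (BT l part) (Rl l) CS C) :
    Paired C (fun a b => ∃ A, Act l psi part a.1 (C.lab a) A ∧
      Act l psi part b.1 (C.lab b) (psi A)) :=
  Pool.H86BX.sol_paired hpsi h hC

/-- building the start from a balanced plan -/
theorem build (hl : Bdd l) {E : Finset V} {mate : V → V} {t0 t1 : V → Lb × Fin r}
    (hE : ∀ v, v ∉ E → Typ l psi part v) (hp : Plan l psi part E mate t0 t1)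
    (hb : Bal psi (∑ v, ct mate t0 t1 v)) :
    ∃ (BadV : Finset V) (CS : Conf V) (kap : V × Bool → Fin r), Sol l psi part BadV CS kap ∧
      BadV.card ≤ E.card + (univ.filter (fun v => mate v ≠ v)).card :=
  Pool.H86BX.build hE hp hb

/-- the same with a hub w, which gets a second edge to the vertex v (token t1 v is replaced by the
edge, the token t0 w is used up) -/
theorem build_hub (hl : Bdd l) {E : Finset V} {mate : V → V} {t0 t1 : V → Lb × Fin r}
    (hE : ∀ v, v ∉ E → Typ l psi part v) (hp : Plan l psi part E mate t0 t1) (w v : V)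
    (hw : mate w ≠ w) (hv : mate v = v) (hlab : l w v ≠ l w (mate w)) (hlab2 : (t0 v).1 ≠ l v w)
    (hb : Bal psi (∑ v, ct mate t0 t1 v - ev (t0 w).2 - ev (t1 v).2)) :
    ∃ (BadV : Finset V) (CS : Conf V) (kap : V × Bool → Fin r), Sol l psi part BadV CS kap ∧
      BadV.card ≤ E.card + (univ.filter (fun v => mate v ≠ v)).card + 1 :=
  Pool.H86BX.build_hub hE hp w v hw hv hlab hlab2 hb

/-- SELECTION LEMMA -/
theorem selection (hl : Bdd l) {k : ℕ} (hk : k ≤ 3) (X : Fin k → Finset V)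
    (hdis : ∀ i j, i ≠ j → Disjoint (X i) (X j)) (h10 : ∀ i, X i = ∅ ∨ 10 ≤ (X i).card)
    (h2 : ∃ i j, i ≠ j ∧ X i ≠ ∅ ∧ X j ≠ ∅)
    (hbig : nn V / 2 + 20 ≤ ∑ i, ((X i).card : ℝ)) (M : V → V) (hM : ∀ v, M v ≠ v) :
    ∃ i j, i ≠ j ∧ ∃ v0 ∈ X i, ∃ v1 ∈ X j, M v0 ≠ v1 ∧ M v1 ≠ v0 ∧
      (M v0 ≠ M v1 ∨ l (M v0) v0 ≠ l (M v0) v1) :=
  Pool.H86BX.selection' hl X hdis h10 h2 hbig M hM

/-- CASE P -/
theorem case_P {s : ℝ} {U : Finset V} {K : Finset (Fin r)} (h : PC l psi part s U K)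
    (hP : PCase l part U K) :
    ∃ (BadV : Finset V) (CS : Conf V) (kap : V × Bool → Fin r), Sol l psi part BadV CS kap ∧
      (BadV.card : ℝ) ≤ 2000 * s * nn V :=
  Pool.H86BX.case_P h hP

end Pool.H90BX
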