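import Pool.Agent.H90.BX.Defs

set_option autoImplicit false

/-! Basic facts on labels and class sizes (all proved). -/

namespace Pool.H90BX

open Finset
open scoped Classical

variable {V : Type} [Fintype V] [DecidableEq V]

theorem mem_cls {l : LS V} {v w : V} {i : Lb} : w ∈ cls l v i ↔ w ≠ v ∧ l v w = i := by
  simp [cls]

theorem cnt_sum (l : LS V) (v : V) : ∑ i, cnt l v i + 1 = Fintype.card V := by
  have h1 : (univ.erase v : Finset V).card = ∑ i ∈ (univ : Finset Lb),
      ((univ.erase v).filter (fun w => l v w = i)).card :=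
    card_eq_sum_card_fiberwise (fun x _ => mem_univ _)
  have h2 : ∀ i, ((univ.erase v).filter (fun w => l v w = i)) = cls l v i := by
    intro i; ext w; simp [cls]
  simp only [h2] at h1
  have h3 : (univ.erase v : Finset V).card = Fintype.card V - 1 := by
    rw [card_erase_of_mem (mem_univ _), card_univ]
  have h4 : 0 < Fintype.card V := Fintype.card_pos_iff.2 ⟨v⟩
  unfold cnt
  omega

theorem cnt_sumR (l : LS V) (v : V) : ∑ i, (cnt l v i : ℝ) = NN V := by
  have h := cnt_sum l v
  have h2 : ((∑ i, cnt l v i + 1 : ℕ) : ℝ) = Fintype.card V := by rw [h]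
  push_cast at h2
  unfold NN; linarith

theorem nn_eq (V : Type) [Fintype V] : nn V = NN V + 1 := by unfold nn NN; ring

/-! sorted labels -/

theorem mx_ne_md (l : LS V) (v : V) : mx l v ≠ md l v := by
  unfold mx md; intro h; exact absurd ((exists_sort l v).choose.injective h) (by decide)

theorem mx_ne_mn (l : LS V) (v : V) : mx l v ≠ mn l v := by
  unfold mx mn; intro h; exact absurd ((exists_sort l v).choose.injective h) (by decide)

theorem mx_ne_ml (l : LS V) (v : V) : mx l v ≠ ml l v := by
  unfold mx ml; intro h; exact absurd ((exists_sort l v).choose.injective h) (by decide)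

theorem md_ne_mn (l : LS V) (v : V) : md l v ≠ mn l v := by
  unfold md mn; intro h; exact absurd ((exists_sort l v).choose.injective h) (by decide)

theorem md_ne_ml (l : LS V) (v : V) : md l v ≠ ml l v := by
  unfold md ml; intro h; exact absurd ((exists_sort l v).choose.injective h) (by decide)

theorem mn_ne_ml (l : LS V) (v : V) : mn l v ≠ ml l v := by
  unfold mn ml; intro h; exact absurd ((exists_sort l v).choose.injective h) (by decide)

theorem cnt_md_le (l : LS V) (v : V) : cnt l v (md l v) ≤ cnt l v (mx l v) :=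
  (exists_sort l v).choose_spec.1

theorem cnt_mn_le (l : LS V) (v : V) : cnt l v (mn l v) ≤ cnt l v (md l v) :=
  (exists_sort l v).choose_spec.2.1

theorem cnt_ml_le (l : LS V) (v : V) : cnt l v (ml l v) ≤ cnt l v (mn l v) :=
  (exists_sort l v).choose_spec.2.2

/-- every label is mx, md, mn or ml -/
theorem lab_cases (l : LS V) (v : V) (i : Lb) :
    i = mx l v ∨ i = md l v ∨ i = mn l v ∨ i = ml l v := by
  obtain ⟨j, rfl⟩ := (exists_sort l v).choose.surjective i
  unfold mx md mn ml
  fin_cases j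
  · exact Or.inl rfl
  · exact Or.inr (Or.inl rfl)
  · exact Or.inr (Or.inr (Or.inl rfl))
  · exact Or.inr (Or.inr (Or.inr rfl))

/-- sum over the labels in sorted order -/
theorem sum_sort {M : Type} [AddCommMonoid M] (l : LS V) (v : V) (f : Lb → M) :
    ∑ i, f i = f (mx l v) + f (md l v) + f (mn l v) + f (ml l v) := by
  rw [← Equiv.sum_comp (exists_sort l v).choose f, Fin.sum_univ_four]; rfl

theorem cnt_sort (l : LS V) (v : V) :
    cnt l v (mx l v) + cnt l v (md l v) + cnt l v (mn l v) + cnt l v (ml l v) + 1 =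
      Fintype.card V := by
  rw [← cnt_sum l v, sum_sort l v (cnt l v)]

theorem cnt_sortR (l : LS V) (v : V) :
    (cnt l v (mx l v) : ℝ) + cnt l v (md l v) + cnt l v (mn l v) + cnt l v (ml l v) = NN V := by
  rw [← cnt_sumR l v, sum_sort l v (fun i => (cnt l v i : ℝ))]

theorem cnt_le_mx (l : LS V) (v : V) (i : Lb) : cnt l v i ≤ cnt l v (mx l v) := by
  have h1 := cnt_md_le l v; have h2 := cnt_mn_le l v; have h3 := cnt_ml_le l v
  rcases lab_cases l v i with h | h | h | h <;> rw [h] <;> omega

theorem cnt_ge_ml (l : LS V) (v : V) (i : Lb) : cnt l v (ml l v) ≤ cnt l v i := by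
  have h1 := cnt_md_le l v; have h2 := cnt_mn_le l v; have h3 := cnt_ml_le l v
  rcases lab_cases l v i with h | h | h | h <;> rw [h] <;> omega

theorem cnt_le_md (l : LS V) (v : V) {i : Lb} (hi : i ≠ mx l v) : cnt l v i ≤ cnt l v (md l v) := by
  have h2 := cnt_mn_le l v; have h3 := cnt_ml_le l v
  rcases lab_cases l v i with h | h | h | h
  · exact absurd h hi
  all_goals rw [h]
  all_goals omega

/-! three and four classes -/

theorem two_cnt {l : LS V} (hl : Bdd l) (v : V) (i : Lb) : 2 * cnt l v i + 2 ≤ Fintype.card V := by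
  rcases hl.2 v with h | h
  · exact h.2 i
  · have h1 := h i; have h2 := hl.1; omega

theorem two_cntR {l : LS V} (hl : Bdd l) (v : V) (i : Lb) : 2 * (cnt l v i : ℝ) + 1 ≤ NN V := by
  have h := two_cnt hl v i
  have h2 : ((2 * cnt l v i + 2 : ℕ) : ℝ) ≤ Fintype.card V := by exact_mod_cast h
  push_cast at h2
  unfold NN; linarith

theorem T3_ml {l : LS V} {v : V} (h : T3 l v) : cnt l v (ml l v) = 0 := by
  have := cnt_ge_ml l v 3; have := h.1; omega

theorem T3_mn_pos {l : LS V} {v : V} (h : T3 l v) : 1 ≤ cnt l v (mn l v) := by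
  have h1 := cnt_sort l v; have h2 := T3_ml h; have h3 := h.2 (mx l v); have h4 := h.2 (md l v)
  omega

theorem not_T3_T4 {l : LS V} (hl : Bdd l) {v : V} (h : T3 l v) : ¬ T4 l v := by
  intro h4; have h1 := h.1; have h2 := h4 3; have h3 := hl.1; omega

theorem T4_cnt {l : LS V} {v : V} (h : T4 l v) (i j : Lb) : cnt l v i = cnt l v j := by
  have := h i; have := h j; omega

theorem T4_cntR {l : LS V} {v : V} (h : T4 l v) (i : Lb) : (cnt l v i : ℝ) = NN V / 4 := by
  have h1 := h i
  have h2 : ((4 * cnt l v i + 1 : ℕ) : ℝ) = Fintype.card V := by rw [h1]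
  push_cast at h2
  unfold NN; linarith

theorem card_ge {l : LS V} (hl : Bdd l) (v : V) : 4 ≤ Fintype.card V := by
  rcases hl.2 v with h | h
  · have := T3_mn_pos h; have := h.2 (mn l v); omega
  · have := h 0; have := hl.1; omega

theorem NN_ge {l : LS V} (hl : Bdd l) (v : V) : 3 ≤ NN V := by
  have h := card_ge hl v
  have h2 : (4 : ℝ) ≤ Fintype.card V := by exact_mod_cast h
  unfold NN; linarith

theorem NN_pos {l : LS V} (hl : Bdd l) (v : V) : 0 < NN V := by have := NN_ge hl v; linarith

theorem nn_pos {l : LS V} (hl : Bdd l) (v : V) : 0 < nn V := by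
  have := NN_ge hl v; rw [nn_eq]; linarith

theorem cnt_md_leR (l : LS V) (v : V) : (cnt l v (md l v) : ℝ) ≤ cnt l v (mx l v) := by
  exact_mod_cast cnt_md_le l v

theorem cnt_mn_leR (l : LS V) (v : V) : (cnt l v (mn l v) : ℝ) ≤ cnt l v (md l v) := by
  exact_mod_cast cnt_mn_le l v

/-- the two largest classes have together at least half of everything -/
theorem mx_md_ge {l : LS V} (hl : Bdd l) (v : V) :
    NN V / 2 ≤ (cnt l v (mx l v) : ℝ) + cnt l v (md l v) := by
  have h1 := cnt_sortR l v; have h2 := cnt_md_leR l v; have h3 := cnt_mn_leR l v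
  have h4 : (cnt l v (ml l v) : ℝ) ≤ cnt l v (mn l v) := by exact_mod_cast cnt_ml_le l v
  linarith

theorem md_ge {l : LS V} (hl : Bdd l) (v : V) : NN V / 4 ≤ cnt l v (md l v) := by
  rcases hl.2 v with h | h
  · have h1 := cnt_sortR l v; have h2 := cnt_md_leR l v; have h3 := cnt_mn_leR l v
    have h4 := two_cntR hl v (mx l v)
    have h5 : (cnt l v (ml l v) : ℝ) = 0 := by exact_mod_cast T3_ml h
    linarith
  · rw [T4_cntR h]

theorem mx_ge {l : LS V} (hl : Bdd l) (v : V) : NN V / 4 ≤ cnt l v (mx l v) :=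
  (md_ge hl v).trans (cnt_md_leR l v)

theorem T3_sortR {l : LS V} {v : V} (h : T3 l v) :
    (cnt l v (mx l v) : ℝ) + cnt l v (md l v) + cnt l v (mn l v) = NN V := by
  have h1 := cnt_sortR l v
  have h5 : (cnt l v (ml l v) : ℝ) = 0 := by exact_mod_cast T3_ml h
  linarith

/-- used labels have nonempty classes -/
theorem cnt_used {l : LS V} {v w : V} (h : w ≠ v) : 1 ≤ cnt l v (l v w) :=
  card_pos.2 ⟨w, mem_cls.2 ⟨h, rfl⟩⟩

/-- at T3 vertices used labels are mx, md or mn -/
theorem T3_used {l : LS V} {v w : V} (h3 : T3 l v) (h : w ≠ v) :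
    l v w = mx l v ∨ l v w = md l v ∨ l v w = mn l v := by
  rcases lab_cases l v (l v w) with h1 | h1 | h1 | h1
  · exact Or.inl h1
  · exact Or.inr (Or.inl h1)
  · exact Or.inr (Or.inr h1)
  · have h2 := cnt_used (l := l) h; rw [h1, T3_ml h3] at h2; omega

/-! the rule Rl -/

theorem Rl_mx (l : LS V) (v : V) : Rl l v (mx l v) = md l v := by simp [Rl]

theorem Rl_of_ne {l : LS V} {v : V} {i : Lb} (h : i ≠ mx l v) : Rl l v i = mx l v := by
  simp [Rl, h]

theorem Rl_md (l : LS V) (v : V) : Rl l v (md l v) = mx l v := Rl_of_ne (mx_ne_md l v).symm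

theorem Rl_mn (l : LS V) (v : V) : Rl l v (mn l v) = mx l v := Rl_of_ne (mx_ne_mn l v).symm

theorem Rl_ne (l : LS V) (v : V) (i : Lb) : Rl l v i ≠ i := by
  by_cases h : i = mx l v
  · rw [h, Rl_mx]; exact (mx_ne_md l v).symm
  · rw [Rl_of_ne h]; exact Ne.symm h

theorem Rl_mem (l : LS V) (v : V) (i : Lb) : Rl l v i = mx l v ∨ Rl l v i = md l v := by
  unfold Rl; split_ifs
  · exact Or.inr rfl
  · exact Or.inl rfl

section lam
variable {r : ℕ} (l : LS V) (part : V → Lb → Fin r) (v : V)

theorem lam_mx : lam l part v (mx l v) = part v (md l v) := by unfold lam; rw [Rl_mx]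
theorem lam_md : lam l part v (md l v) = part v (mx l v) := by unfold lam; rw [Rl_md]
theorem lam_mn : lam l part v (mn l v) = part v (mx l v) := by unfold lam; rw [Rl_mn]
theorem lam_of_ne {i : Lb} (h : i ≠ mx l v) : lam l part v i = part v (mx l v) := by
  unfold lam; rw [Rl_of_ne h]
end lam

/-- the sum over the other vertices of a function of the label -/
theorem sum_label (l : LS V) (v : V) (g : Lb → ℝ) :
    ∑ w ∈ univ.erase v, g (l v w) = ∑ i, (cnt l v i : ℝ) * g i := by
  rw [← Finset.sum_fiberwise_of_maps_to (s := univ.erase v) (t := (univ : Finset Lb))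
    (g := fun w => l v w) (fun x _ => mem_univ _)]
  refine sum_congr rfl fun i _ => ?_
  have h2 : ((univ.erase v).filter (fun w => l v w = i)) = cls l v i := by
    ext w; simp [cls]
  rw [h2, sum_congr rfl (fun w hw => by rw [(mem_cls.1 hw).2]), sum_const, nsmul_eq_mul]
  rfl

theorem Reg_symm {r : ℕ} {l : LS V} {psi : Fin r → Fin r} (hpsi : ∀ a, psi (psi a) = a)
    {part : V → Lb → Fin r} {v w : V} (h : Reg l psi part v w) : Reg l psi part w v := by
  unfold Reg at *; rw [h, hpsi]

end Pool.H90BX
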