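import Pool.Agent.H60.BX.BulkA

set_option autoImplicit false

/-! B3: the bulk theorem (from the strong nibble H12/Nib/SN.lean, theorem strong). -/

namespace Pool.H90BX

open Finset
open scoped Classical

/-- BULK: disjoint clean compatible L-paths covering almost everything, random-like for n^q tests -/
theorem bulk (L : ℕ) [NeZero L] (hL : 4 ≤ L) (e : ℝ) (he : 0 < e) (q : ℕ) :
    ∃ xi > (0 : ℝ), ∃ n0 : ℕ, ∀ (V : Type) [Fintype V] [DecidableEq V],
      n0 ≤ Fintype.card V → ∀ l : LS V, Bdd l →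
      ∀ (BadV : Finset V) (BadE : V → V → Prop) (BadT : V → Lb → Lb → Prop),
      BadSmall l xi BadV BadE BadT →
      ∀ (Λ : Type) [Fintype Λ] (F : Λ → (Fin L → V) → ℝ),
      Fintype.card Λ ≤ Fintype.card V ^ q → (∀ i P, 0 ≤ F i P ∧ F i P ≤ L) →
      ∃ M : Finset (Fin L → V), (∀ P ∈ M, Clean l BadV BadE BadT P) ∧
        (∀ P ∈ M, ∀ P' ∈ M, P ≠ P' → ∀ a b, P a ≠ P' b) ∧
        (1 - e) * nn V ≤ L * M.card ∧
        ∀ i, nn V / L * (∑ P, mu l L P * F i P) - e * nn V ≤ ∑ P ∈ M, F i P :=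
  Pool.H60BX.bulk L hL e he q

end Pool.H90BX
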