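import Pool.Agent.H90.BX.RB

set_option autoImplicit false

/-! Block C (chain of stages). Paper J3, J4, J5. -/

namespace Pool.H90BX

open Finset
open scoped Classical

variable {V : Type} [Fintype V] [DecidableEq V] {r : ℕ} {l : LS V} {psi : Fin r → Fin r}
  {part : V → Lb → Fin r} {val : Fin r → ℤ} {s : ℝ} {U E : Finset V} {K : Finset (Fin r)}

section H85

/-- value of a total -/
private def Lv (val : Fin r → ℤ) (o : Fin r → ℤ) : ℤ := ∑ A, val A * o A

private theorem Lv_ev (val : Fin r → ℤ) (A : Fin r) : Lv val (ev A) = val A := by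
  unfold Lv ev
  rw [Finset.sum_eq_single A]
  · simp
  · intro b _ hb
    simp [hb]
  · intro h
    exact absurd (mem_univ _) h

private theorem Lv_add (val : Fin r → ℤ) (o o' : Fin r → ℤ) :
    Lv val (o + o') = Lv val o + Lv val o' := by
  unfold Lv
  rw [← sum_add_distrib]
  exact sum_congr rfl fun A _ => by rw [Pi.add_apply]; ring

private theorem Lv_sub (val : Fin r → ℤ) (o o' : Fin r → ℤ) :
    Lv val (o - o') = Lv val o - Lv val o' := by
  unfold Lv
  rw [← sum_sub_distrib]
  exact sum_congr rfl fun A _ => by rw [Pi.sub_apply]; ring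

private theorem Lv_sum {α : Type} (val : Fin r → ℤ) (S : Finset α) (f : α → Fin r → ℤ) :
    Lv val (∑ v ∈ S, f v) = ∑ v ∈ S, Lv val (f v) := by
  classical
  induction S using Finset.induction_on with
  | empty => simp [Lv]
  | insert a S ha ih => rw [sum_insert ha, sum_insert ha, Lv_add, ih]

private theorem Lv_neg (val : Fin r → ℤ) (o : Fin r → ℤ) :
    Lv (fun A => - val A) o = - Lv val o := by
  unfold Lv
  rw [← sum_neg_distrib]
  exact sum_congr rfl fun A _ => by ring

private theorem mval_neg (val : Fin r → ℤ) (t : (Lb × Fin r) × (Lb × Fin r)) :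
    mval (fun A => - val A) t = - mval val t := by
  unfold mval; ring

/-- totals of modes -/
private def mt (X : Finset V) (m : V → (Lb × Fin r) × (Lb × Fin r)) : Fin r → ℤ :=
  ∑ v ∈ Xᶜ, (ev (m v).1.2 + ev (m v).2.2)

private theorem Lv_mt (val : Fin r → ℤ) (X : Finset V) (m : V → (Lb × Fin r) × (Lb × Fin r)) :
    Lv val (mt X m) + ∑ x ∈ X, mval val (m x) = ∑ u, mval val (m u) := by
  unfold mt
  rw [Lv_sum, add_comm, ← Finset.sum_add_sum_compl X (fun u => mval val (m u))]
  congr 1
  exact sum_congr rfl fun v _ => by rw [Lv_add, Lv_ev, Lv_ev]; rfl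

/-- modes in the tables -/
private def MOk (l : LS V) (psi : Fin r → Fin r) (part : V → Lb → Fin r) (E : Finset V)
    (m : V → (Lb × Fin r) × (Lb × Fin r)) : Prop :=
  ∀ v, (m v).1 ∈ Tab l psi part E v ∧ (m v).2 ∈ Tab l psi part E v ∧ (m v).1.1 ≠ (m v).2.1

private theorem achv_modes {X : Finset V} {B : ℕ} {m : V → (Lb × Fin r) × (Lb × Fin r)}
    (hm : MOk l psi part E m) : Achv l psi part E X B (mt X m) := by
  refine ⟨id, fun v => (m v).1, fun v => (m v).2, ⟨fun _ => rfl, fun _ _ => rfl,
    fun v => (hm v).1, fun v _ => (hm v).2.1, fun v _ => (hm v).2.2,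
    fun v hv => absurd rfl hv, ?_⟩, ?_⟩
  · simp
  · unfold mt ct
    simp

private theorem MOk.of_max {v' : Fin r → ℤ} {M : V → (Lb × Fin r) × (Lb × Fin r)}
    (hM : ∀ u, IsMax v' (Tab l psi part E u) (M u)) : MOk l psi part E M :=
  fun v => ⟨(hM v).m1, (hM v).m2, (hM v).ne⟩

private theorem MOk.update {m : V → (Lb × Fin r) × (Lb × Fin r)} (hm : MOk l psi part E m) (u : V)
    {t : (Lb × Fin r) × (Lb × Fin r)} (h1 : t.1 ∈ Tab l psi part E u)
    (h2 : t.2 ∈ Tab l psi part E u) (h3 : t.1.1 ≠ t.2.1) :
    MOk l psi part E (Function.update m u t) := by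
  intro v
  by_cases h : v = u
  · subst h
    rw [Function.update_self]
    exact ⟨h1, h2, h3⟩
  · rw [Function.update_of_ne h]
    exact hm v

private theorem mt_update {X : Finset V} (m : V → (Lb × Fin r) × (Lb × Fin r)) {u : V}
    (hu : u ∉ X) (t : (Lb × Fin r) × (Lb × Fin r)) :
    mt X (Function.update m u t) =
      mt X m - (ev (m u).1.2 + ev (m u).2.2) + (ev t.1.2 + ev t.2.2) := by
  unfold mt
  have hmem : u ∈ Xᶜ := mem_compl.2 hu
  rw [← Finset.add_sum_erase _ _ hmem, ← Finset.add_sum_erase (Xᶜ) _ hmem, Function.update_self]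
  have : ∑ x ∈ (Xᶜ).erase u, (ev (Function.update m u t x).1.2 + ev (Function.update m u t x).2.2) =
      ∑ x ∈ (Xᶜ).erase u, (ev (m x).1.2 + ev (m x).2.2) :=
    sum_congr rfl fun x hx => by rw [Function.update_of_ne (ne_of_mem_erase hx)]
  rw [this]
  abel

private theorem mt_update_mem {X : Finset V} (m : V → (Lb × Fin r) × (Lb × Fin r)) {u : V}
    (hu : u ∈ X) (t : (Lb × Fin r) × (Lb × Fin r)) :
    mt X (Function.update m u t) = mt X m := by
  unfold mt
  exact sum_congr rfl fun x hx => by
    have : x ≠ u := by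
      rintro rfl
      exact (mem_compl.1 hx) hu
    rw [Function.update_of_ne this]

/-- moving one vertex from its minimal mode to its maximal mode -/
private theorem walk_one {X : Finset V} {B : ℕ} {M Mn : V → (Lb × Fin r) × (Lb × Fin r)}
    (hM : ∀ u, IsMax val (Tab l psi part E u) (M u))
    (hMn : ∀ u, IsMax (fun A => - val A) (Tab l psi part E u) (Mn u))
    (hK : ∀ u, ∀ t ∈ Tab l psi part E u, t.2 ∈ K)
    {m : V → (Lb × Fin r) × (Lb × Fin r)} (hm : MOk l psi part E m) {u : V} (hu : u ∉ X)
    (hmu : m u = Mn u) :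
    Relation.ReflTransGen (Step l psi part val K E X B) (mt X m)
      (mt X (Function.update m u (M u))) := by
  obtain ⟨y, z, hyz, hy, hyl, hv1, hv2, hsum⟩ : ∃ y z : Lb × Fin r, (y ∈ Tab l psi part E u ∧
      z ∈ Tab l psi part E u) ∧ True ∧ (Mn u).1.1 ≠ y.1 ∧ val (Mn u).2.2 ≤ val y.2 ∧
      val (Mn u).1.2 ≤ val z.2 ∧ (ev y.2 + ev z.2 = ev (M u).1.2 + ev (M u).2.2) := by
    by_cases hb : (Mn u).1.1 = (M u).1.1
    · refine ⟨(M u).2, (M u).1, ⟨(hM u).m2, (hM u).m1⟩, trivial, ?_, ?_, ?_, by abel⟩
      · rw [hb]; exact (hM u).ne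
      · have := (hMn u).snd (M u).2 (hM u).m2 (by rw [hb]; exact (hM u).ne.symm)
        simpa using this
      · have := (hMn u).top (M u).1 (hM u).m1
        simpa using this
    · refine ⟨(M u).1, (M u).2, ⟨(hM u).m1, (hM u).m2⟩, trivial, hb, ?_, ?_, rfl⟩
      · exact (hM u).top _ (hMn u).m2
      · have := (hMn u).top (M u).2 (hM u).m2
        simpa using this
  have hm1 : MOk l psi part E (Function.update m u ((Mn u).1, y)) :=
    hm.update u (hMn u).m1 hyz.1 hyl
  have hm2 : MOk l psi part E (Function.update m u (M u)) :=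
    hm.update u (hM u).m1 (hM u).m2 (hM u).ne
  refine Relation.ReflTransGen.trans (Relation.ReflTransGen.single
    (b := mt X (Function.update m u ((Mn u).1, y))) ⟨achv_modes hm, achv_modes hm1, Or.inr (Or.inr
      ⟨(Mn u).2.2, hK u _ (hMn u).m2, y.2, hK u _ hyz.1, hv1, ?_⟩)⟩)
    (Relation.ReflTransGen.single ⟨achv_modes hm1, achv_modes hm2, Or.inr (Or.inr
      ⟨(Mn u).1.2, hK u _ (hMn u).m1, z.2, hK u _ hyz.2, hv2, ?_⟩)⟩)
  · rw [mt_update m hu, hmu]
    abel
  · rw [mt_update m hu, mt_update m hu, hmu, ← hsum]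
    abel

private theorem walk {X : Finset V} {B : ℕ} {M Mn : V → (Lb × Fin r) × (Lb × Fin r)}
    (hM : ∀ u, IsMax val (Tab l psi part E u) (M u))
    (hMn : ∀ u, IsMax (fun A => - val A) (Tab l psi part E u) (Mn u))
    (hK : ∀ u, ∀ t ∈ Tab l psi part E u, t.2 ∈ K) :
    Relation.ReflTransGen (Step l psi part val K E X B) (mt X Mn) (mt X M) := by
  have key : ∀ S : Finset V, ∃ m : V → (Lb × Fin r) × (Lb × Fin r), MOk l psi part E m ∧
      (∀ u, m u = if u ∈ S then M u else Mn u) ∧
      Relation.ReflTransGen (Step l psi part val K E X B) (mt X Mn) (mt X m) := by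
    intro S
    induction S using Finset.induction_on with
    | empty => exact ⟨Mn, MOk.of_max hMn, fun u => by simp, Relation.ReflTransGen.refl⟩
    | insert a S ha ih =>
      obtain ⟨m, hm, hmS, hp⟩ := ih
      refine ⟨Function.update m a (M a), hm.update a (hM a).m1 (hM a).m2 (hM a).ne,
        fun u => ?_, ?_⟩
      · by_cases h : u = a
        · subst h; simp
        · rw [Function.update_of_ne h, hmS u]
          simp [h]
      · by_cases haX : a ∈ X
        · rw [mt_update_mem m haX]; exact hp
        · refine hp.trans (walk_one hM hMn hK hm haX ?_)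
          rw [hmS a, if_neg ha]
  obtain ⟨m, -, hmS, hp⟩ := key univ
  have : m = M := by
    funext u
    rw [hmS u, if_pos (mem_univ u)]
  rwa [this] at hp

/-- steps which drop two classes of negative total value -/
private def Rel1 (l : LS V) (psi : Fin r → Fin r) (part : V → Lb → Fin r) (val : Fin r → ℤ)
    (K : Finset (Fin r)) (E X : Finset V) (B : ℕ) (o o' : Fin r → ℤ) : Prop :=
  Achv l psi part E X B o ∧ Achv l psi part E X B o' ∧
    ∃ x ∈ K, ∃ y ∈ K, val x + val y < 0 ∧ o' = o - ev x - ev y

private theorem raise_path {val' : Fin r → ℤ} {X : Finset V} {B : ℕ}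
    {M : V → (Lb × Fin r) × (Lb × Fin r)} (hM : MOk l psi part E M)
    (hK : ∀ u, ∀ t ∈ Tab l psi part E u, t.2 ∈ K) {q : ℕ} (hR : Raises l val' M X q)
    (hB : 2 * q ≤ B) :
    ∃ o, Achv l psi part E X B o ∧
      Relation.ReflTransGen (Rel1 l psi part val' K E X B) (mt X M) o ∧
      Lv val' (mt X M) + q ≤ Lv val' o := by
  obtain ⟨e, he1, he2, he3⟩ := hR
  have key : ∀ j : ℕ, j ≤ q → ∃ mate t0 t1, Stg l psi part E X B mate t0 t1 ∧
      (∀ v, mate v = v → t0 v = (M v).1 ∧ t1 v = (M v).2) ∧
      (∀ i : Fin q, j ≤ (i : ℕ) → mate (e i).1 = (e i).1 ∧ mate (e i).2 = (e i).2) ∧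
      (univ.filter (fun v => mate v ≠ v)).card ≤ 2 * j ∧
      Relation.ReflTransGen (Rel1 l psi part val' K E X B) (mt X M)
        (∑ v ∈ Xᶜ, ct mate t0 t1 v) ∧
      Lv val' (mt X M) + j ≤ Lv val' (∑ v ∈ Xᶜ, ct mate t0 t1 v) := by
    intro j
    induction j with
    | zero =>
      intro _
      have e0 : ∑ v ∈ Xᶜ, ct id (fun v => (M v).1) (fun v => (M v).2) v = mt X M := by
        unfold mt ct
        simp
      refine ⟨id, fun v => (M v).1, fun v => (M v).2, ⟨fun _ => rfl, fun _ _ => rfl,
        fun v => (hM v).1, fun v _ => (hM v).2.1, fun v _ => (hM v).2.2,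
        fun v hv => absurd rfl hv, by simp⟩, fun v _ => ⟨rfl, rfl⟩, fun i _ => ⟨rfl, rfl⟩,
        by simp, ?_, ?_⟩
      · rw [e0]
      · rw [e0]; simp
    | succ j ih =>
      intro hj
      obtain ⟨mate, t0, t1, hS, hum, hfr, hc, hp, hL⟩ := ih (by omega)
      have hjq : j < q := hj
      obtain ⟨b, b', hne, hb1, hb2, hneg⟩ := he1 ⟨j, hjq⟩
      obtain ⟨hvX, hwX⟩ := he2 ⟨j, hjq⟩
      obtain ⟨hmv, hmw⟩ := hfr ⟨j, hjq⟩ le_rfl
      set v := (e ⟨j, hjq⟩).1 with hv
      set w := (e ⟨j, hjq⟩).2 with hw
      have hsel : ∀ (b : Bool) (u : V), sel b (M u) ∈ Tab l psi part E u := by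
        intro b u
        unfold sel
        split_ifs
        · exact (hM u).1
        · exact (hM u).2.1
      have hselsum : ∀ (b : Bool) (u : V), ev (M u).1.2 + ev (M u).2.2 =
          ev (sel b (M u)).2 + ev (sel (!b) (M u)).2 := by
        intro b u
        cases b
        · simp [sel, add_comm]
        · simp [sel]
      let mate' : V → V := fun u => if u = v then w else if u = w then v else mate u
      let t0' : V → Lb × Fin r :=
        fun u => if u = v then sel b (M v) else if u = w then sel b' (M w) else t0 u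
      have m'v : mate' v = w := by simp [mate']
      have m'w : mate' w = v := by simp [mate', hne.symm]
      have m'o : ∀ u, u ≠ v → u ≠ w → mate' u = mate u := fun u h1 h2 => by simp [mate', h1, h2]
      have t'v : t0' v = sel b (M v) := by simp [t0']
      have t'w : t0' w = sel b' (M w) := by simp [t0', hne.symm]
      have t'o : ∀ u, u ≠ v → u ≠ w → t0' u = t0 u := fun u h1 h2 => by simp [t0', h1, h2]
      have mo : ∀ u, mate u = v → u = v := fun u h => by rw [← hS.inv u, h, hmv]
      have mo' : ∀ u, mate u = w → u = w := fun u h => by rw [← hS.inv u, h, hmw]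
      have hfil : (univ.filter (fun u => mate' u ≠ u)).card ≤ 2 * (j + 1) := by
        have hsub : univ.filter (fun u => mate' u ≠ u) ⊆
            insert v (insert w (univ.filter (fun u => mate u ≠ u))) := by
          intro u hu
          rw [mem_filter] at hu
          rw [mem_insert, mem_insert, mem_filter]
          by_cases h1 : u = v
          · exact Or.inl h1
          · by_cases h2 : u = w
            · exact Or.inr (Or.inl h2)
            · refine Or.inr (Or.inr ⟨mem_univ _, ?_⟩)
              rw [← m'o u h1 h2]; exact hu.2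
        have h1 := card_le_card hsub
        have h2 := card_insert_le v (insert w (univ.filter (fun u => mate u ≠ u)))
        have h3 := card_insert_le w (univ.filter (fun u => mate u ≠ u))
        omega
      have hS' : Stg l psi part E X B mate' t0' t1 := by
        refine ⟨fun u => ?_, fun u hu => ?_, fun u => ?_, fun u hu => ?_, fun u hu => ?_,
          fun u hu => ?_, hfil.trans (by omega)⟩
        · by_cases h1 : u = v
          · rw [h1, m'v, m'w]
          · by_cases h2 : u = w
            · rw [h2, m'w, m'v]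
            · rw [m'o u h1 h2, m'o (mate u) (fun h => h1 (mo u h)) (fun h => h2 (mo' u h)), hS.inv]
        · have h1 : u ≠ v := by rintro rfl; exact hvX hu
          have h2 : u ≠ w := by rintro rfl; exact hwX hu
          rw [m'o u h1 h2]; exact hS.fix u hu
        · by_cases h1 : u = v
          · rw [h1, t'v]; exact hsel _ _
          · by_cases h2 : u = w
            · rw [h2, t'w]; exact hsel _ _
            · rw [t'o u h1 h2]; exact hS.tok0 u
        · have h1 : u ≠ v := by
            rintro h; rw [h, m'v] at hu; exact hne hu.symm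
          have h2 : u ≠ w := by
            rintro h; rw [h, m'w] at hu; exact hne hu
          rw [m'o u h1 h2] at hu
          exact hS.tok1 u hu
        · have h1 : u ≠ v := by
            rintro h; rw [h, m'v] at hu; exact hne hu.symm
          have h2 : u ≠ w := by
            rintro h; rw [h, m'w] at hu; exact hne hu
          rw [m'o u h1 h2] at hu
          rw [t'o u h1 h2]
          exact hS.ne u hu
        · by_cases h1 : u = v
          · rw [h1, t'v, m'v]; exact hb1
          · by_cases h2 : u = w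
            · rw [h2, t'w, m'w]; exact hb2
            · rw [m'o u h1 h2] at hu ⊢
              rw [t'o u h1 h2]
              exact hS.use u hu
      have hct : ∀ u, ct mate' t0' t1 u = ct mate t0 t1 u -
          (if u = v then ev (sel (!b) (M v)).2 else 0) -
          (if u = w then ev (sel (!b') (M w)).2 else 0) := by
        intro u
        by_cases h1 : u = v
        · have h2 : u ≠ w := by rw [h1]; exact hne
          rw [if_pos h1, if_neg h2, sub_zero]
          rw [h1]
          unfold ct
          rw [if_neg (by rw [m'v]; exact hne.symm), if_pos hmv, t'v, (hum v hmv).1, (hum v hmv).2,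
            hselsum b v]
          abel
        · by_cases h2 : u = w
          · rw [if_neg h1, if_pos h2, sub_zero]
            rw [h2]
            unfold ct
            rw [if_neg (by rw [m'w]; exact hne), if_pos hmw, t'w, (hum w hmw).1, (hum w hmw).2,
              hselsum b' w]
            abel
          · rw [if_neg h1, if_neg h2, sub_zero, sub_zero]
            unfold ct
            rw [m'o u h1 h2, t'o u h1 h2]
      have htot : ∑ u ∈ Xᶜ, ct mate' t0' t1 u = ∑ u ∈ Xᶜ, ct mate t0 t1 u -
          ev (sel (!b) (M v)).2 - ev (sel (!b') (M w)).2 := by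
        rw [sum_congr rfl fun u _ => hct u, sum_sub_distrib, sum_sub_distrib, sum_ite_eq',
          sum_ite_eq', if_pos (mem_compl.2 hvX), if_pos (mem_compl.2 hwX)]
      refine ⟨mate', t0', t1, hS', fun u hu => ?_, fun i hi => ?_, hfil, ?_, ?_⟩
      · have h1 : u ≠ v := by
          rintro h; rw [h, m'v] at hu; exact hne hu.symm
        have h2 : u ≠ w := by
          rintro h; rw [h, m'w] at hu; exact hne hu
        rw [m'o u h1 h2] at hu
        rw [t'o u h1 h2]
        exact hum u hu
      · have hij : i ≠ ⟨j, hjq⟩ := by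
          rintro rfl
          simp at hi
        obtain ⟨d1, d2, d3, d4⟩ := he3 i ⟨j, hjq⟩ hij
        have h4 := hfr i (by omega)
        rw [m'o _ d1 d2, m'o _ d3 d4]
        exact h4
      · refine hp.tail ⟨⟨mate, t0, t1, hS, rfl⟩, ⟨mate', t0', t1, hS', rfl⟩,
          (sel (!b) (M v)).2, hK v _ (hsel _ _), (sel (!b') (M w)).2, hK w _ (hsel _ _), hneg, htot⟩
      · rw [htot, Lv_sub, Lv_sub, Lv_ev, Lv_ev]
        push_cast
        linarith
  obtain ⟨mate, t0, t1, hS, -, -, -, hp, hL⟩ := key q le_rfl
  exact ⟨_, ⟨mate, t0, t1, hS, rfl⟩, hp, hL⟩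

end H85

/-- CHAIN: M = maximal modes, Mn = minimal modes (maximal for - val), X = excluded vertices.
There are achievable totals o1, o2 outside X, connected by steps, such that o1 with the minimal
modes on X has value at most -1 and o2 with the maximal modes on X has value at least 1. The value of
a total o is sum_A val A * o A. -/
theorem chain (h : FC l psi part val s U K) (hE : EC l psi part val s U E)
    (M Mn : V → (Lb × Fin r) × (Lb × Fin r)) (hM : ∀ u, IsMax val (Tab l psi part E u) (M u))
    (hMn : ∀ u, IsMax (fun A => - val A) (Tab l psi part E u) (Mn u))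
    (X : Finset V) (hX : X.card ≤ 4) (B : ℕ) (hB : 18 * s * nn V + 20 ≤ B) :
    ∃ o1 o2, Achv l psi part E X B o1 ∧
      Relation.ReflTransGen (Step l psi part val K E X B) o1 o2 ∧
      ∑ A, val A * o1 A + ∑ x ∈ X, mval val (Mn x) ≤ -1 ∧
      1 ≤ ∑ A, val A * o2 A + ∑ x ∈ X, mval val (M x) := by
  have hK : ∀ u, ∀ t ∈ Tab l psi part E u, t.2 ∈ K := fun u t ht => tab_K h hE u t ht
  have hMo : MOk l psi part E M := MOk.of_max hM
  have hMno : MOk l psi part E Mn := MOk.of_max hMn
  have hmin := Lv_mt val X Mn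
  have hmax := Lv_mt val X M
  have hwalk : Relation.ReflTransGen (Step l psi part val K E X B) (mt X Mn) (mt X M) :=
    walk hM hMn hK
  have hsn : 0 ≤ s * nn V := by
    have := h.large
    linarith
  -- the lower end
  obtain ⟨o1, ho1, hp1, hv1⟩ : ∃ o1, Achv l psi part E X B o1 ∧
      Relation.ReflTransGen (Step l psi part val K E X B) o1 (mt X Mn) ∧
      Lv val o1 + ∑ x ∈ X, mval val (Mn x) ≤ -1 := by
    by_cases hW : ∑ u, mval val (Mn u) ≤ -1
    · exact ⟨mt X Mn, achv_modes hMno, Relation.ReflTransGen.refl, by rw [hmin]; exact hW⟩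
    · push Not at hW
      have hneg : ∑ u, mval (fun A => - val A) (Mn u) = - ∑ u, mval val (Mn u) := by
        rw [← sum_neg_distrib]
        exact sum_congr rfl fun u _ => mval_neg val (Mn u)
      have hlow := W_lower h.neg hE.neg Mn hMn
      rw [hneg] at hlow
      push_cast at hlow
      obtain ⟨q, hq⟩ : ∃ q : ℕ, (q : ℤ) = (∑ u, mval val (Mn u)) + 1 :=
        ⟨((∑ u, mval val (Mn u)) + 1).toNat, Int.toNat_of_nonneg (by omega)⟩
      have hqB : 2 * q ≤ B := by
        have h1 : ((q : ℤ) : ℝ) = ((∑ u, mval val (Mn u) : ℤ) : ℝ) + 1 := by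
          rw [hq]; push_cast; ring
        push_cast at h1
        have h2 : (2 * q : ℝ) ≤ B := by linarith
        exact_mod_cast h2
      have hR := raise h.neg hE.neg Mn hMn (by rw [hneg]; omega) X hX q (by rw [hneg]; omega)
      obtain ⟨o, ho, hp, hL⟩ := raise_path hMno hK hR hqB
      refine ⟨o, ho, ?_, ?_⟩
      · have hsw := Relation.ReflTransGen.swap _ _ hp
        refine Relation.ReflTransGen.mono ?_ _ _ hsw
        rintro a b ⟨hb, ha, x, hx, y, hy, hxy, hab⟩
        refine ⟨ha, hb, Or.inr (Or.inl ⟨x, hx, y, hy, by linarith, ?_⟩)⟩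
        rw [hab]; abel
      · rw [Lv_neg, Lv_neg] at hL
        linarith
  -- the upper end
  obtain ⟨o2, hp2, hv2⟩ : ∃ o2,
      Relation.ReflTransGen (Step l psi part val K E X B) (mt X M) o2 ∧
      1 ≤ Lv val o2 + ∑ x ∈ X, mval val (M x) := by
    by_cases hW : 1 ≤ ∑ u, mval val (M u)
    · exact ⟨mt X M, Relation.ReflTransGen.refl, by rw [hmax]; exact hW⟩
    · push Not at hW
      have hlow := W_lower h hE M hM
      push_cast at hlow
      obtain ⟨q, hq⟩ : ∃ q : ℕ, (q : ℤ) = - (∑ u, mval val (M u)) + 1 :=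
        ⟨(- (∑ u, mval val (M u)) + 1).toNat, Int.toNat_of_nonneg (by omega)⟩
      have hqB : 2 * q ≤ B := by
        have h1 : ((q : ℤ) : ℝ) = - ((∑ u, mval val (M u) : ℤ) : ℝ) + 1 := by
          rw [hq]; push_cast; ring
        push_cast at h1
        have h2 : (2 * q : ℝ) ≤ B := by linarith
        exact_mod_cast h2
      have hR := raise h hE M hM (by omega) X hX q (by omega)
      obtain ⟨o, ho, hp, hL⟩ := raise_path hMo hK hR hqB
      refine ⟨o, ?_, ?_⟩
      · refine Relation.ReflTransGen.mono ?_ _ _ hp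
        rintro a b ⟨ha, hb, x, hx, y, hy, hxy, hab⟩
        exact ⟨ha, hb, Or.inl ⟨x, hx, y, hy, hxy, hab⟩⟩
      · linarith
  exact ⟨o1, o2, ho1, (hp1.trans hwalk).trans hp2, hv1, hv2⟩

end Pool.H90BX
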