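import Mathlib

set_option autoImplicit false

/-! Definitions for the large n Bollobas-Erdos theorem (MP_d0d043_co), paper
/team-store/h90_be_paper.md. Labels at the ends of edges: `l v w` is the label of vw at v. -/

namespace Pool.H90BX

open Finset
open scoped Classical

/-- labels: 0, 1, 2 and a fourth label 3, which is only used at vertices with four equal classes -/
abbrev Lb := Fin 4

/-- label systems: `l v w` is the label of the edge vw at its end v -/
abbrev LS (V : Type) := V → V → Lb

/-- the third label (of two distinct labels in 0, 1, 2) -/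
def third (i j : Lb) : Lb := 3 - i - j

/-- states: vertex with the kept label -/
abbrev St (V : Type) := V × Lb

section Basic

variable {V : Type} [Fintype V] [DecidableEq V]

/-- the class of the label i at v -/
def cls (l : LS V) (v : V) (i : Lb) : Finset V := univ.filter (fun w => w ≠ v ∧ l v w = i)

/-- size of the class -/
def cnt (l : LS V) (v : V) (i : Lb) : ℕ := (cls l v i).card

/-- vertices with three classes: label 3 is not used, every class has at most n/2 - 1 elements -/
def T3 (l : LS V) (v : V) : Prop := cnt l v 3 = 0 ∧ ∀ i, 2 * cnt l v i + 2 ≤ Fintype.card V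

/-- vertices with four equal classes -/
def T4 (l : LS V) (v : V) : Prop := ∀ i, 4 * cnt l v i + 1 = Fintype.card V

/-- bounded label systems -/
def Bdd (l : LS V) : Prop := 3 ≤ Fintype.card V ∧ ∀ v, T3 l v ∨ T4 l v

/-- n and N = n - 1 -/
noncomputable def nn (V : Type) [Fintype V] : ℝ := (Fintype.card V : ℝ)
noncomputable def NN (V : Type) [Fintype V] : ℝ := (Fintype.card V : ℝ) - 1

/-- transition masses between the classes: symmetric, zero diagonal, row sums cnt l v i -/
noncomputable def mm (l : LS V) (v : V) (i j : Lb) : ℝ :=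
  if i = j then 0
  else if T4 l v then NN V / 12
  else if i = 3 ∨ j = 3 then 0
  else (NN V - 2 * cnt l v (third i j)) / 2

/-- the transition weights: Q v x y = probability of going from x through v to y -/
noncomputable def Q (l : LS V) (v x y : V) : ℝ :=
  if x ≠ v ∧ y ≠ v then mm l v (l v x) (l v y) / (cnt l v (l v x) * cnt l v (l v y)) else 0

/-- the measure on 4-tuples -/
noncomputable def mu4 (l : LS V) (a b c d : V) : ℝ :=
  (if b ≠ c then 1 / (nn V * NN V) else 0) * Q l b a c * Q l c b d

/-- the a-th vertex of a tuple (a is meant to be < L) -/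
def pt {W : Type} {L : ℕ} [NeZero L] (P : Fin L → W) (a : ℕ) : W := P (Fin.ofNat L a)

/-- the path measure on L-tuples, L at least 2 -/
noncomputable def mu (l : LS V) (L : ℕ) [NeZero L] (P : Fin L → V) : ℝ :=
  (if pt P 0 ≠ pt P 1 then 1 / (nn V * NN V) else 0) *
    ∏ a ∈ range (L - 2), Q l (pt P (a + 1)) (pt P a) (pt P (a + 2))

/-! states -/

/-- s and t can be joined by the edge s.1 t.1 -/
def J (l : LS V) (s t : St V) : Prop := s.1 ≠ t.1 ∧ l s.1 t.1 ≠ s.2 ∧ l t.1 s.1 ≠ t.2

/-- probability that the other label at v is k, given the label i (0 for i = k) -/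
noncomputable def tr (l : LS V) (v : V) (i k : Lb) : ℝ := mm l v i k / cnt l v i

/-- the measure on pairs of states -/
noncomputable def W (l : LS V) (s t : St V) : ℝ :=
  if s.1 ≠ t.1 then
    1 / (nn V * NN V) * (tr l s.1 (l s.1 t.1) s.2 * tr l t.1 (l t.1 s.1) t.2)
  else 0

/-- its marginal -/
noncomputable def pi (l : LS V) (s : St V) : ℝ := (cnt l s.1 s.2 : ℝ) / (nn V * NN V)

/-- pi measure of a set of states -/
noncomputable def piS (l : LS V) (P : St V → Prop) : ℝ := ∑ y, if P y then pi l y else 0

/-- W mass of the pairs (y, y') with P y and P' y' -/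
noncomputable def mass (l : LS V) (P P' : St V → Prop) : ℝ :=
  ∑ y, ∑ y', if P y ∧ P' y' then W l y y' else 0

/-- mu1 s t = W mass of the exchanges that connect s and t -/
noncomputable def mu1 (l : LS V) (s t : St V) : ℝ := mass l (J l s) (fun y' => J l y' t)

/-- tokens: a state and a set of allowed labels for the new edge -/
abbrev Tok (V : Type) := St V × Finset (Lb)

/-- the token a can be joined with the state y by a good edge -/
def JG (l : LS V) (c : ℝ) (a : Tok V) (y : St V) : Prop :=
  J l a.1 y ∧ l a.1.1 y.1 ∈ a.2 ∧ c ≤ mu1 l a.1 y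

/-- states from which the token t can be reached by k + 1 exchanges -/
def G (l : LS V) (c eta : ℝ) (t : Tok V) : ℕ → St V → Prop
  | 0 => fun s => eta ≤ mass l (JG l c (s, univ)) (JG l c t)
  | k + 1 => fun s => G l c eta t k s ∨ eta ≤ mass l (JG l c (s, univ)) (G l c eta t k)

/-- the tokens a and t can be joined by at most K + 2 exchanges -/
def Joinable (l : LS V) (c eta : ℝ) (K : ℕ) (a t : Tok V) : Prop :=
  ∃ k, k ≤ K ∧ eta ≤ mass l (JG l c a) (G l c eta t k)

/-! small bad sets -/

/-- bad vertices, bad edges, bad transitions have small measure -/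
def BadSmall (l : LS V) (xi : ℝ) (BadV : Finset V) (BadE : V → V → Prop)
    (BadT : V → Lb → Lb → Prop) : Prop :=
  (BadV.card : ℝ) ≤ xi * nn V ∧
  ((univ.filter (fun p : V × V => p.1 ≠ p.2 ∧ BadE p.1 p.2)).card : ℝ) ≤ xi * nn V ^ 2 ∧
  ∑ v, ∑ i, ∑ j, (if BadT v i j then mm l v i j else 0) ≤ xi * nn V ^ 2

/-- clean compatible injective path -/
structure Clean (l : LS V) (BadV : Finset V) (BadE : V → V → Prop)
    (BadT : V → Lb → Lb → Prop) {L : ℕ} [NeZero L] (P : Fin L → V) : Prop where
  inj : Function.Injective P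
  comp : ∀ a, a + 2 < L → l (pt P (a + 1)) (pt P a) ≠ l (pt P (a + 1)) (pt P (a + 2))
  vert : ∀ a, P a ∉ BadV
  edge : ∀ a, a + 1 < L → ¬ BadE (pt P a) (pt P (a + 1))
  trans : ∀ a, a + 2 < L →
    ¬ BadT (pt P (a + 1)) (l (pt P (a + 1)) (pt P a)) (l (pt P (a + 1)) (pt P (a + 2)))

/-! configurations -/

/-- slots V x Bool; `sg` pairs the slots along edges, its fixed points are the tokens -/
structure Conf (V : Type) where
  sg : V × Bool → V × Bool
  lab : V × Bool → Lb

/-- the other slot at the same vertex -/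
def fl {V : Type} (a : V × Bool) : V × Bool := (a.1, !a.2)

/-- valid configurations (double edges are excluded by lab_ne and lab_eq) -/
structure Conf.Ok (C : Conf V) (l : LS V) : Prop where
  inv : ∀ a, C.sg (C.sg a) = a
  lab_ne : ∀ a, C.lab a ≠ C.lab (fl a)
  ne : ∀ a, C.sg a ≠ a → (C.sg a).1 ≠ a.1
  lab_eq : ∀ a, C.sg a ≠ a → C.lab a = l a.1 (C.sg a).1

/-- the state of a slot: vertex and label of the other slot -/
def Conf.st (C : Conf V) (a : V × Bool) : St V := (a.1, C.lab (fl a))

/-- adjacency of the graph of a configuration -/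
def Conf.adj (C : Conf V) (v w : V) : Prop := ∃ b, C.sg (v, b) ≠ (v, b) ∧ (C.sg (v, b)).1 = w

/-- the start: a configuration which has edges only inside BadV, every component there has a
token, default labels outside BadV -/
structure Start (l : LS V) (BadV : Finset V) (d0 d1 : V → Lb) (CS : Conf V) : Prop where
  ok : CS.Ok l
  out : ∀ a, a.1 ∉ BadV → CS.sg a = a
  tok : ∀ v ∈ BadV, ∃ w, Relation.ReflTransGen CS.adj v w ∧ ∃ b, CS.sg (w, b) = (w, b)
  dflt : ∀ v, v ∉ BadV → CS.lab (v, false) = d0 v ∧ CS.lab (v, true) = d1 v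

/-- extensions of the start by clean edges outside BadV -/
structure Ext (l : LS V) (BadV : Finset V) (BadE : V → V → Prop)
    (BadT : V → Lb → Lb → Prop) (R : V → Lb → Lb) (CS C : Conf V) : Prop where
  ok : C.Ok l
  same : ∀ a, a.1 ∈ BadV → C.sg a = CS.sg a ∧ C.lab a = CS.lab a
  edge : ∀ a, a.1 ∉ BadV → C.sg a ≠ a → ¬ BadE a.1 (C.sg a).1
  trans : ∀ a, a.1 ∉ BadV → C.sg a ≠ a → C.sg (fl a) ≠ fl a → ¬ BadT a.1 (C.lab a) (C.lab (fl a))
  one : ∀ a, a.1 ∉ BadV → C.sg a = a → C.sg (fl a) ≠ fl a → C.lab a = R a.1 (C.lab (fl a))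
  two : ∀ a, a.1 ∉ BadV → C.sg a = a → C.sg (fl a) = fl a → C.lab a = CS.lab a

/-- the tokens can be paired with related partners -/
def Paired (C : Conf V) (Rel : V × Bool → V × Bool → Prop) : Prop :=
  ∃ p : V × Bool → V × Bool, ∀ a, C.sg a = a →
    C.sg (p a) = p a ∧ p (p a) = a ∧ p a ≠ a ∧ Rel a (p a)

/-- compatible Hamilton cycle -/
def Ham (l : LS V) : Prop :=
  ∃ f : ℕ → V, (∀ i, f (i + Fintype.card V) = f i) ∧
    (∀ i j, i < Fintype.card V → j < Fintype.card V → f i = f j → i = j) ∧
    ∀ i, l (f (i + 1)) (f i) ≠ l (f (i + 1)) (f (i + 2))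

/-! labels sorted by class size -/

theorem exists_sort (l : LS V) (v : V) :
    ∃ p : Equiv.Perm Lb, cnt l v (p 1) ≤ cnt l v (p 0) ∧ cnt l v (p 2) ≤ cnt l v (p 1) ∧
      cnt l v (p 3) ≤ cnt l v (p 2) := by
  have key : ∀ f : Lb → ℕ, ∃ p : Equiv.Perm Lb, f (p 1) ≤ f (p 0) ∧ f (p 2) ≤ f (p 1) ∧
      f (p 3) ≤ f (p 2) := by
    intro f
    refine ⟨Tuple.sort (fun i => OrderDual.toDual (f i)), ?_, ?_, ?_⟩
    · exact Tuple.monotone_sort (fun i => OrderDual.toDual (f i)) (show (0 : Lb) ≤ 1 by decide)
    · exact Tuple.monotone_sort (fun i => OrderDual.toDual (f i)) (show (1 : Lb) ≤ 2 by decide)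
    · exact Tuple.monotone_sort (fun i => OrderDual.toDual (f i)) (show (2 : Lb) ≤ 3 by decide)
  exact key _

/-- labels at v in the order of class size: largest, second, third, smallest (`ml`, empty class
at T3 vertices) -/
noncomputable def mx (l : LS V) (v : V) : Lb := (exists_sort l v).choose 0
noncomputable def md (l : LS V) (v : V) : Lb := (exists_sort l v).choose 1
noncomputable def mn (l : LS V) (v : V) : Lb := (exists_sort l v).choose 2
noncomputable def ml (l : LS V) (v : V) : Lb := (exists_sort l v).choose 3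

/-- the largest label different from i -/
noncomputable def Rl (l : LS V) (v : V) (i : Lb) : Lb := if i = mx l v then md l v else mx l v

/-! types: a partition of the states into r parts, `part v k` = part of the state (v,k) -/

variable {r : ℕ}

/-- the part of the tokens at v wanting label i -/
noncomputable def lam (l : LS V) (part : V → Lb → Fin r) (v : V) (i : Lb) : Fin r :=
  part v (Rl l v i)

/-- regular pairs -/
def Reg (l : LS V) (psi : Fin r → Fin r) (part : V → Lb → Fin r) (v w : V) : Prop :=
  lam l part w (l w v) = psi (lam l part v (l v w))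

/-- number of irregular ordered pairs -/
noncomputable def irr (l : LS V) (psi : Fin r → Fin r) (part : V → Lb → Fin r) : ℝ :=
  ((univ.filter (fun p : V × V => p.1 ≠ p.2 ∧ ¬ Reg l psi part p.1 p.2)).card : ℝ)

/-- mass of the transitions of vertices of 2-types that stay in one half -/
noncomputable def trn (l : LS V) (part : V → Lb → Fin r) : ℝ :=
  ∑ v, if part v (mx l v) ≠ part v (md l v) then NN V - 2 * cnt l v (mx l v) else 0

/-- bad transitions -/
def BT (l : LS V) (part : V → Lb → Fin r) (v : V) (i j : Lb) : Prop :=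
  part v (mx l v) ≠ part v (md l v) ∧ ((i = md l v ∧ j = mn l v) ∨ (i = mn l v ∧ j = md l v))

/-- a token at u wanting the label i acts as a member of the part A -/
def Act (l : LS V) (psi : Fin r → Fin r) (part : V → Lb → Fin r) (u : V) (i : Lb)
    (A : Fin r) : Prop :=
  nn V / 8000 ≤ ((univ.filter (fun w : V => w ≠ u ∧ l u w = i ∧
    ∃ k, k ≠ l w u ∧ (k = mx l w ∨ k = md l w) ∧ part w k = psi A)).card : ℝ)

end Basic

end Pool.H90BX
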