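import Pool.Agent.H59.BX.Asm

set_option autoImplicit false

/-! I5: the engine theorem. -/

namespace Pool.H90BX

open Finset
open scoped Classical

theorem engine (c1 eta : ℝ) (hc1 : 0 < c1) (heta : 0 < eta) (K : ℕ) :
    ∃ xi > (0 : ℝ), ∃ n0 : ℕ, ∀ (V : Type) [Fintype V] [DecidableEq V],
      n0 ≤ Fintype.card V → ∀ l : LS V, Bdd l →
      ∀ (BadV : Finset V) (BadE : V → V → Prop) (BadT : V → Lb → Lb → Prop)
        (R : V → Lb → Lb) (d0 d1 : V → Lb),
      (∀ v w, BadE v w → BadE w v) → (∀ v i j, BadT v i j → BadT v j i) →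
      BadSmall l xi BadV BadE BadT → (∀ v i, R v i ≠ i) → (∀ v, d0 v ≠ d1 v) →
      ∀ CS : Conf V, Start l BadV d0 d1 CS →
      (∀ C : Conf V, Ext l BadV BadE BadT R CS C →
        Paired C (fun a b => Joinable l c1 eta K (C.st a, {C.lab a}) (C.st b, {C.lab b}))) →
      Ham l := E59.engine' c1 eta hc1 heta K

end Pool.H90BX
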