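import Pool.Agent.H46.BX.ErgA

set_option autoImplicit false

/-! B4: ergodicity, and the window lemma for the path measure. -/

namespace Pool.H90BX

open Finset
open scoped Classical

/-- windows of the path measure have the path measure as law -/
theorem mu_window (L w : ℕ) [NeZero L] [NeZero w] (hw : 2 ≤ w) (p : ℕ) (hp : p + w ≤ L)
    (V : Type) [Fintype V] [DecidableEq V] (l : LS V) (hl : Bdd l) (g : (Fin w → V) → ℝ) :
    ∑ P : Fin L → V, mu l L P * g (fun a => pt P (p + a)) = ∑ x : Fin w → V, mu l w x * g x :=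
  Fl46.mu_window_d hl w hw g p (L - w - p) L (by omega)

/-- ERGODICITY: a reversal closed set of 4-tuples of measure at least c is missed by a random
L0-path with probability at most d -/
theorem ergodic (d c : ℝ) (hd : 0 < d) (hc : 0 < c) :
    ∃ L0 : ℕ, 4 ≤ L0 ∧ ∀ (h0 : NeZero L0) (V : Type) [Fintype V] [DecidableEq V] (l : LS V),
      Bdd l → ∀ A : V → V → V → V → Prop, (∀ x y z w, A x y z w → A w z y x) →
      c ≤ ∑ x, ∑ y, ∑ z, ∑ w, (if A x y z w then mu4 l x y z w else 0) →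
      ∑ P : Fin L0 → V, (if ∀ p, p + 4 ≤ L0 → ¬ A (pt P p) (pt P (p + 1)) (pt P (p + 2))
        (pt P (p + 3)) then mu l L0 P else 0) ≤ d := by
  have hdc : 0 < d * c := mul_pos hd hc
  let M : ℕ := ⌈(8 + 888 / (d * c)) / (d * c)⌉₊ + 1
  have hM : 0 < M := Nat.succ_pos _
  have hM' : (0 : ℝ) < M := by exact_mod_cast hM
  have hMb : (8 + 888 / (d * c)) / (d * c) < M := by
    have h1 := Nat.le_ceil ((8 + 888 / (d * c)) / (d * c))
    have h2 : ((M : ℕ) : ℝ) = (⌈(8 + 888 / (d * c)) / (d * c)⌉₊ : ℝ) + 1 := by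
      push_cast [M]
      ring
    rw [h2]
    linarith
  refine ⟨(M + 1) + 4, by omega, ?_⟩
  intro h0 V _ _ l hb A hrev hcA
  refine (Fl46.avoid_le hb A (M + 1) _ rfl).trans ?_
  by_contra hcon
  rw [not_le] at hcon
  obtain ⟨k, hk1, hkM, hk⟩ := Fl46.exists_small hb A hM
  obtain ⟨j, rfl⟩ : ∃ j, k = j + 1 := ⟨k - 1, by omega⟩
  have hf : d < Fl46.e4 l (Fl46.it l A (j + 1)) :=
    hcon.trans_le (Fl46.e4_it_anti hb A (by omega))
  have hcA' : c ≤ Fl46.e4 l (fun a b c d => if A a b c d then 1 else 0) := by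
    refine hcA.trans (le_of_eq ?_)
    unfold Fl46.e4
    refine Finset.sum_congr rfl fun x _ => Finset.sum_congr rfl fun y _ =>
      Finset.sum_congr rfl fun z _ => Finset.sum_congr rfl fun w _ => ?_
    by_cases hh : A x y z w
    · simp only [if_pos hh, mul_one]
    · simp only [if_neg hh, mul_zero]
  have hcore := Fl46.core hb hrev (f := Fl46.it l A (j + 1)) (h := Fl46.it l A (j + 1 + 1))
    (del := 1 / M) (Fl46.it_nonneg hb A _) (Fl46.it_le_one hb A _)
    (fun a b c d h => Fl46.it_zero_on l A j h) (Fl46.it_succ_le hb A _) (Fl46.it_le_U hb A _)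
    hk hc.le hcA' (eta := d * c / 3) (by positivity)
  have h1 : 2 * d * c < 2 * Fl46.e4 l (Fl46.it l A (j + 1)) * c := by
    have := mul_lt_mul_of_pos_right hf hc
    linarith
  have h2 : 8 * (1 / (M : ℝ)) + 3 * (d * c / 3) + 296 * (1 / (M : ℝ)) / (d * c / 3) =
      (8 + 888 / (d * c)) * (1 / M) + d * c := by
    field_simp
    ring
  rw [h2] at hcore
  have h3 : (8 + 888 / (d * c)) * (1 / (M : ℝ)) < d * c := by
    rw [mul_one_div, div_lt_iff₀ hM']
    rw [div_lt_iff₀ hdc] at hMb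
    linarith
  linarith

end Pool.H90BX
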