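import Pool.Agent.H90.BX.CB
import Pool.Agent.H90.BX.SB
import Pool.Agent.H28.BX.OneB

set_option autoImplicit false

/-! Block F (finish of case F). Paper J6. -/

namespace Pool.H90BX

open Finset
open scoped Classical

variable {V : Type} [Fintype V] [DecidableEq V] {r : ℕ} {l : LS V} {psi : Fin r → Fin r}
  {part : V → Lb → Fin r} {val : Fin r → ℤ} {s : ℝ} {U : Finset V} {K : Finset (Fin r)}

/-- CASE F -/
theorem case_F (h : FC l psi part val s U K) (hF : FCase l psi part val U K) :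
    ∃ (BadV : Finset V) (CS : Conf V) (kap : V × Bool → Fin r), Sol l psi part BadV CS kap ∧
      (BadV.card : ℝ) ≤ 2000 * s * nn V := by
  obtain ⟨E, hE⟩ := exists_EC h
  obtain ⟨g, hg, hval, ⟨x, y, hxy, hx, hy, hK, -, hcx, hcy⟩ | ⟨x, hx, hK⟩⟩ := hF
  · exact Pool.H28BX.case_first h hE ⟨h.vl.inv, hg, hxy, hx, hy, hK⟩ hval hcx hcy
  · exact Pool.H28BX.case_second h hE hg hval hx hK

end Pool.H90BX
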