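import Pool.Agent.H90.BX.Bas

set_option autoImplicit false

/-! Definitions for parts H and J (types of vertices, tables, plans, stages, elementary steps). -/

namespace Pool.H90BX

open Finset
open scoped Classical

variable {V : Type} [Fintype V] [DecidableEq V] {r : ℕ}

/-- unit vector of a class -/
def ev (A : Fin r) : Fin r → ℤ := Pi.single A 1

/-- balanced token counts: dual classes equally often, self-dual classes evenly often -/
def Bal (psi : Fin r → Fin r) (c : Fin r → ℤ) : Prop :=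
  ∀ A, c A = c (psi A) ∧ (psi A = A → Even (c A))

/-- values of classes -/
structure Vl (psi : Fin r → Fin r) (val : Fin r → ℤ) : Prop where
  inv : ∀ A, psi (psi A) = A
  anti : ∀ A, val (psi A) = - val A
  lo : ∀ A, -1 ≤ val A
  hi : ∀ A, val A ≤ 1
  uniq : ∀ A B, val A = 1 → val B = 1 → A = B

/-- classes that may occur: self-dual or of nonzero value -/
def Cl (psi : Fin r → Fin r) (val : Fin r → ℤ) (A : Fin r) : Prop := psi A = A ∨ val A ≠ 0

/-- vertices with at most s n irregular partners -/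
def Few (l : LS V) (psi : Fin r → Fin r) (part : V → Lb → Fin r) (s : ℝ) (v : V) : Prop :=
  ((univ.filter (fun w : V => w ≠ v ∧ ¬ Reg l psi part v w)).card : ℝ) ≤ s * nn V

/-- the set V1 of typical vertices -/
noncomputable def V1 (l : LS V) (psi : Fin r → Fin r) (part : V → Lb → Fin r) (s : ℝ) :
    Finset V :=
  univ.filter (fun v => Few l psi part s v ∧
    (part v (mx l v) ≠ part v (md l v) → NN V - 2 * cnt l v (mx l v) ≤ s * NN V))

/-- the type of a vertex -/
noncomputable def tp (l : LS V) (part : V → Lb → Fin r) (v : V) : Finset (Fin r) :=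
  {lam l part v (mx l v), lam l part v (md l v)}

/-! ### the solution format -/

/-- a balanced start with acting classes of its tokens -/
structure Sol (l : LS V) (psi : Fin r → Fin r) (part : V → Lb → Fin r) (BadV : Finset V)
    (CS : Conf V) (kap : V × Bool → Fin r) : Prop where
  start : Start l BadV (mx l) (md l) CS
  act : ∀ a, a.1 ∈ BadV → CS.sg a = a → Act l psi part a.1 (CS.lab a) (kap a)
  out : ∀ v, v ∉ BadV → Act l psi part v (mx l v) (lam l part v (mx l v)) ∧
    Act l psi part v (md l v) (lam l part v (md l v)) ∧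
    (part v (mx l v) ≠ part v (md l v) → T3 l v)
  bal : Bal psi (∑ v ∈ BadVᶜ, (ev (lam l part v (mx l v)) + ev (lam l part v (md l v))) +
    ∑ a ∈ univ.filter (fun a : V × Bool => a.1 ∈ BadV ∧ CS.sg a = a), ev (kap a))

/-- a plan: a matching with remaining tokens t0, two tokens t0, t1 at unmatched vertices -/
structure Plan (l : LS V) (psi : Fin r → Fin r) (part : V → Lb → Fin r) (E : Finset V)
    (mate : V → V) (t0 t1 : V → Lb × Fin r) : Prop where
  inv : ∀ v, mate (mate v) = v
  tok0 : ∀ v, Act l psi part v (t0 v).1 (t0 v).2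
  tok1 : ∀ v, mate v = v → Act l psi part v (t1 v).1 (t1 v).2
  ne : ∀ v, mate v = v → (t0 v).1 ≠ (t1 v).1
  use : ∀ v, mate v ≠ v → (t0 v).1 ≠ l v (mate v)
  std : ∀ v, v ∉ E → mate v = v → t0 v = (mx l v, lam l part v (mx l v)) ∧
    t1 v = (md l v, lam l part v (md l v))

/-- typical vertices outside E: acting classes of the tokens mx, md; T3 if the type has two parts -/
def Typ (l : LS V) (psi : Fin r → Fin r) (part : V → Lb → Fin r) (v : V) : Prop :=
  Act l psi part v (mx l v) (lam l part v (mx l v)) ∧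
    Act l psi part v (md l v) (lam l part v (md l v)) ∧
    (part v (mx l v) ≠ part v (md l v) → T3 l v)

/-- contribution of a vertex to the token counts -/
noncomputable def ct (mate : V → V) (t0 t1 : V → Lb × Fin r) (v : V) : Fin r → ℤ :=
  if mate v = v then ev (t0 v).2 + ev (t1 v).2 else ev (t0 v).2

/-! ### case P -/

/-- the setting of case P: all classes in K are self-dual; U = the vertices of the main types -/
structure PC (l : LS V) (psi : Fin r → Fin r) (part : V → Lb → Fin r) (s : ℝ) (U : Finset V)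
    (K : Finset (Fin r)) : Prop where
  inv : ∀ A, psi (psi A) = A
  bdd : Bdd l
  s0 : 0 < s
  s1 : s ≤ 1 / 10 ^ 9
  large : 1000 ≤ s * nn V
  few : ∀ v ∈ U, Few l psi part s v
  half : ∀ v ∈ U, part v (mx l v) ≠ part v (md l v) → NN V - 2 * cnt l v (mx l v) ≤ s * NN V
  big : ((Uᶜ).card : ℝ) ≤ s * nn V
  kcard : K.card ≤ 3
  kfix : ∀ A ∈ K, psi A = A
  kin : ∀ v ∈ U, lam l part v (mx l v) ∈ K ∧ lam l part v (md l v) ∈ K

/-- the vertices of U of type T -/
noncomputable def ofT (l : LS V) (part : V → Lb → Fin r) (U : Finset V) (T : Finset (Fin r)) :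
    Finset V := U.filter (fun v => tp l part v = T)

/-- the three subcases of case P -/
def PCase (l : LS V) (part : V → Lb → Fin r) (U : Finset V) (K : Finset (Fin r)) : Prop :=
  (∃ a, K = {a}) ∨
  (∃ a b, a ≠ b ∧ K = {a, b} ∧ (ofT l part U {a, b}).Nonempty) ∨
  (∃ a b c, a ≠ b ∧ a ≠ c ∧ b ≠ c ∧ K = {a, b, c} ∧ 10 ≤ (ofT l part U {a, b}).card ∧
    10 ≤ (ofT l part U {a, c}).card ∧
    (ofT l part U {b, c} = ∅ ∨ 10 ≤ (ofT l part U {b, c}).card) ∧
    9 / 10 * nn V ≤ ((ofT l part U {a, b}).card : ℝ) + (ofT l part U {a, c}).card +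
      (ofT l part U {b, c}).card)

/-! ### case F -/

/-- the values of case F -/
def valF (psi : Fin r → Fin r) (h : Fin r) (A : Fin r) : ℤ :=
  if A = h then 1 else if A = psi h then -1 else 0

/-- the two subcases of case F; in the second one sa = h is allowed (no self-dual class) -/
def FCase (l : LS V) (psi : Fin r → Fin r) (part : V → Lb → Fin r) (val : Fin r → ℤ)
    (U : Finset V) (K : Finset (Fin r)) : Prop :=
  ∃ h, psi h ≠ h ∧ val = valF psi h ∧
    ((∃ sa sb, sa ≠ sb ∧ psi sa = sa ∧ psi sb = sb ∧ K = {h, psi h, sa, sb} ∧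
      (∀ v ∈ U, tp l part v = {h, psi h} ∨ tp l part v = {sa, h} ∨ tp l part v = {sb, psi h}) ∧
      2 / 5 * nn V ≤ ((ofT l part U {sa, h}).card : ℝ) ∧
      2 / 5 * nn V ≤ ((ofT l part U {sb, psi h}).card : ℝ)) ∨
    (∃ sa, (psi sa = sa ∨ sa = h) ∧ K = {h, psi h, sa}))


/-- the setting of case F: U = the vertices of the main types, K = the classes that occur -/
structure FC (l : LS V) (psi : Fin r → Fin r) (part : V → Lb → Fin r) (val : Fin r → ℤ)
    (s : ℝ) (U : Finset V) (K : Finset (Fin r)) : Prop where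
  vl : Vl psi val
  bdd : Bdd l
  s0 : 0 < s
  s1 : s ≤ 1 / 10 ^ 9
  large : 1000 ≤ s * nn V
  few : ∀ v ∈ U, Few l psi part s v
  half : ∀ v ∈ U, NN V - 2 * cnt l v (mx l v) ≤ s * NN V
  two : ∀ v ∈ U, val (lam l part v (mx l v)) ≠ val (lam l part v (md l v))
  big : ((Uᶜ).card : ℝ) ≤ s * nn V
  kcard : K.card ≤ 4
  kpsi : ∀ A ∈ K, psi A ∈ K
  kcl : ∀ A ∈ K, Cl psi val A
  kin : ∀ v ∈ U, lam l part v (mx l v) ∈ K ∧ lam l part v (md l v) ∈ K
  nlo : 2 / 5 * nn V ≤ ((U.filter (fun v => val (lam l part v (mx l v)) = -1 ∨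
    val (lam l part v (md l v)) = -1)).card : ℝ)
  nhi : 2 / 5 * nn V ≤ ((U.filter (fun v => val (lam l part v (mx l v)) = 1 ∨
    val (lam l part v (md l v)) = 1)).card : ℝ)

/-- popular vertices -/
def Pop (l : LS V) (psi : Fin r → Fin r) (part : V → Lb → Fin r) (val : Fin r → ℤ)
    (U : Finset V) (v : V) : Prop :=
  nn V / 4000 ≤ ((U.filter (fun w => w ≠ v ∧ Reg l psi part v w ∧ l w v = mn l w ∧
    val (lam l part w (mx l w)) < val (lam l part w (md l w)))).card : ℝ)

/-- the exceptional set E: complement of U and the popular vertices, if they are few -/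
structure EC (l : LS V) (psi : Fin r → Fin r) (part : V → Lb → Fin r) (val : Fin r → ℤ)
    (s : ℝ) (U E : Finset V) : Prop where
  sub : ∀ v, v ∉ E → v ∈ U
  card : (E.card : ℝ) ≤ 1000 * s * nn V
  popp : (∀ v, v ∉ E → ¬ Pop l psi part val U v) ∨
    100 * s * nn V ≤ (((univ.filter (fun v => v ∉ E ∧ Pop l psi part val U v)).card : ℕ) : ℝ)
  popm : (∀ v, v ∉ E → ¬ Pop l psi part (fun A => - val A) U v) ∨
    100 * s * nn V ≤
      (((univ.filter (fun v => v ∉ E ∧ Pop l psi part (fun A => - val A) U v)).card : ℕ) : ℝ)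

/-- tables of possible tokens -/
noncomputable def Tab (l : LS V) (psi : Fin r → Fin r) (part : V → Lb → Fin r) (E : Finset V)
    (u : V) : Finset (Lb × Fin r) :=
  if u ∈ E then univ.filter (fun t => nn V / 8000 ≤ ((univ.filter (fun w : V => w ∉ E ∧ w ≠ u ∧
      l u w = t.1 ∧ ∃ k, k ≠ l w u ∧ (k = mx l w ∨ k = md l w) ∧ part w k = psi t.2)).card : ℝ))
  else {(mx l u, lam l part u (mx l u)), (md l u, lam l part u (md l u))}

/-- a mode of maximal value: best entry and best entry with another label -/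
structure IsMax (val : Fin r → ℤ) (T : Finset (Lb × Fin r))
    (t : (Lb × Fin r) × (Lb × Fin r)) : Prop where
  m1 : t.1 ∈ T
  m2 : t.2 ∈ T
  ne : t.1.1 ≠ t.2.1
  top : ∀ x ∈ T, val x.2 ≤ val t.1.2
  snd : ∀ x ∈ T, x.1 ≠ t.1.1 → val x.2 ≤ val t.2.2

/-- value of a mode -/
def mval (val : Fin r → ℤ) (t : (Lb × Fin r) × (Lb × Fin r)) : ℤ :=
  val t.1.2 + val t.2.2

/-- elementary steps (raising the value by 0, 1 or 2) -/
def El (K : Finset (Fin r)) (val : Fin r → ℤ) (o o' : Fin r → ℤ) : Prop :=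
  (∃ x ∈ K, ∃ y ∈ K, val x + val y < 0 ∧ o' = o - ev x - ev y) ∨
  (∃ x ∈ K, ∃ y ∈ K, 0 < val x + val y ∧ o' = o + ev x + ev y) ∨
  (∃ x ∈ K, ∃ y ∈ K, val x ≤ val y ∧ o' = o - ev x + ev y)

/-- stages: plans with entries from the tables, whose matching avoids X -/
structure Stg (l : LS V) (psi : Fin r → Fin r) (part : V → Lb → Fin r) (E X : Finset V)
    (B : ℕ) (mate : V → V) (t0 t1 : V → Lb × Fin r) : Prop where
  inv : ∀ v, mate (mate v) = v
  fix : ∀ v ∈ X, mate v = v
  tok0 : ∀ v, t0 v ∈ Tab l psi part E v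
  tok1 : ∀ v, mate v = v → t1 v ∈ Tab l psi part E v
  ne : ∀ v, mate v = v → (t0 v).1 ≠ (t1 v).1
  use : ∀ v, mate v ≠ v → (t0 v).1 ≠ l v (mate v)
  few : (univ.filter (fun v => mate v ≠ v)).card ≤ B

/-- achievable totals outside X -/
def Achv (l : LS V) (psi : Fin r → Fin r) (part : V → Lb → Fin r) (E X : Finset V) (B : ℕ)
    (o : Fin r → ℤ) : Prop :=
  ∃ mate t0 t1, Stg l psi part E X B mate t0 t1 ∧ o = ∑ v ∈ Xᶜ, ct mate t0 t1 v

/-- steps between achievable totals -/
def Step (l : LS V) (psi : Fin r → Fin r) (part : V → Lb → Fin r) (val : Fin r → ℤ)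
    (K : Finset (Fin r)) (E X : Finset V) (B : ℕ) (o o' : Fin r → ℤ) : Prop :=
  Achv l psi part E X B o ∧ Achv l psi part E X B o' ∧ El K val o o'

/-! ### raising edges -/

/-- first or second entry of a mode -/
def sel (b : Bool) (t : (Lb × Fin r) × (Lb × Fin r)) : Lb × Fin r :=
  if b then t.1 else t.2

/-- vw is a raising edge: token sel b (M v) stays at v, the other one is dropped -/
def REdge (l : LS V) (val : Fin r → ℤ) (M : V → (Lb × Fin r) × (Lb × Fin r)) (v w : V)
    (b b' : Bool) : Prop :=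
  v ≠ w ∧ (sel b (M v)).1 ≠ l v w ∧ (sel b' (M w)).1 ≠ l w v ∧
    val (sel (!b) (M v)).2 + val (sel (!b') (M w)).2 < 0

/-- q disjoint raising edges avoiding X -/
def Raises (l : LS V) (val : Fin r → ℤ) (M : V → (Lb × Fin r) × (Lb × Fin r))
    (X : Finset V) (q : ℕ) : Prop :=
  ∃ e : Fin q → V × V, (∀ i, ∃ b b', REdge l val M (e i).1 (e i).2 b b') ∧
    (∀ i, (e i).1 ∉ X ∧ (e i).2 ∉ X) ∧
    ∀ i j, i ≠ j → (e i).1 ≠ (e j).1 ∧ (e i).1 ≠ (e j).2 ∧ (e i).2 ≠ (e j).1 ∧ (e i).2 ≠ (e j).2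

/-- views: which entry of the mode M v is dropped when the label j is used at v -/
structure View (M : V → (Lb × Fin r) × (Lb × Fin r)) (dr : V → Lb → Bool) : Prop where
  ok1 : ∀ v j, dr v j = true → (M v).2.1 ≠ j
  ok2 : ∀ v j, dr v j = false → (M v).1.1 ≠ j

/-- value dropped at v -/
def fv (val : Fin r → ℤ) (M : V → (Lb × Fin r) × (Lb × Fin r)) (dr : V → Lb → Bool)
    (v : V) (j : Lb) : ℤ := if dr v j = true then val (M v).1.2 else val (M v).2.2

/-- pairs whose edge is raising in the view dr -/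
def Rad (l : LS V) (val : Fin r → ℤ) (M : V → (Lb × Fin r) × (Lb × Fin r))
    (dr : V → Lb → Bool) (v w : V) : Prop :=
  v ≠ w ∧ fv val M dr v (l v w) + fv val M dr w (l w v) < 0

end Pool.H90BX
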