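import Pool.Agent.H74.BX.Cls

set_option autoImplicit false

/-! Block H (classification). Paper part H, with labels Lb = Fin 4 (T3 / T4 vertices). -/

namespace Pool.H90BX

open Finset
open scoped Classical

/-- CLASSIFICATION: s1 is the new small parameter (given), s the small parameter of the input -/
theorem classify (r : ℕ) (s1 : ℝ) (hs1 : 0 < s1) (hs : s1 ≤ 1 / 10 ^ 9) :
    ∃ s > (0 : ℝ), ∃ n0 : ℕ, ∀ (V : Type) [Fintype V] [DecidableEq V],
      n0 ≤ Fintype.card V → ∀ l : LS V, Bdd l →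
      ∀ (psi : Fin r → Fin r) (part : V → Lb → Fin r), (∀ a, psi (psi a) = a) →
      irr l psi part ≤ s ^ 2 * nn V ^ 2 → trn l part ≤ s ^ 2 * nn V ^ 2 →
      (∃ (U : Finset V) (K : Finset (Fin r)), PC l psi part s1 U K ∧ PCase l part U K) ∨
      (∃ (U : Finset V) (K : Finset (Fin r)) (val : Fin r → ℤ), FC l psi part val s1 U K ∧
        FCase l psi part val U K) := by
  have hr : (0 : ℝ) < 1000 * ((r : ℝ) + 1) ^ 2 := by positivity
  have hs0 : 0 < s1 / (1000 * ((r : ℝ) + 1) ^ 2) := div_pos hs1 hr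
  refine ⟨s1 / (1000 * ((r : ℝ) + 1) ^ 2), hs0,
    ⌈1000 / (s1 / (1000 * ((r : ℝ) + 1) ^ 2))⌉₊, ?_⟩
  intro V _ _ hn l hl psi part hpsi hirr htrn
  refine H74.classify_at hs hl hs0 ?_ ?_ hpsi hirr htrn
  · have h1 : 1000 / (s1 / (1000 * ((r : ℝ) + 1) ^ 2)) ≤ nn V := by
      refine (Nat.le_ceil _).trans ?_
      unfold nn
      exact_mod_cast hn
    rw [div_le_iff₀ hs0] at h1
    linarith
  · rw [mul_div_cancel₀ _ hr.ne']

end Pool.H90BX
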