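import Pool.Agent.H90.BX.HB
import Pool.Agent.H90.BX.FB

set_option autoImplicit false

/-! Assembly of the balanced start (statement of HJT.lean). -/

namespace Pool.H90BX

open Finset
open scoped Classical

theorem balanced_start' (r : ℕ) (xi : ℝ) (hxi : 0 < xi) :
    ∃ s > (0 : ℝ), ∃ n0 : ℕ, ∀ (V : Type) [Fintype V] [DecidableEq V],
      n0 ≤ Fintype.card V → ∀ l : LS V, Bdd l →
      ∀ (psi : Fin r → Fin r) (part : V → Lb → Fin r), (∀ a, psi (psi a) = a) →
      irr l psi part ≤ s ^ 2 * nn V ^ 2 → trn l part ≤ s ^ 2 * nn V ^ 2 →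
      ∃ (BadV : Finset V) (CS : Conf V), (BadV.card : ℝ) ≤ xi * nn V ∧
        Start l BadV (mx l) (md l) CS ∧
        ∀ C : Conf V, Ext l BadV (fun v w => ¬ Reg l psi part v w) (BT l part) (Rl l) CS C →
          Paired C (fun a b => ∃ A, Act l psi part a.1 (C.lab a) A ∧
            Act l psi part b.1 (C.lab b) (psi A)) := by
  obtain ⟨s, hs, n0, h⟩ := classify r (min (1 / 10 ^ 9) (xi / 2000))
    (lt_min (by norm_num) (by positivity)) (min_le_left _ _)
  refine ⟨s, hs, n0, ?_⟩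
  intro V _ _ hn l hl psi part hpsi hirr htrn
  have hkey : ∃ (BadV : Finset V) (CS : Conf V) (kap : V × Bool → Fin r),
      Sol l psi part BadV CS kap ∧
      (BadV.card : ℝ) ≤ 2000 * min (1 / 10 ^ 9) (xi / 2000) * nn V := by
    rcases h V hn l hl psi part hpsi hirr htrn with ⟨U, K, h1, h2⟩ | ⟨U, K, val, h1, h2⟩
    · exact case_P h1 h2
    · exact case_F h1 h2
  obtain ⟨BadV, CS, kap, h1, h2⟩ := hkey
  refine ⟨BadV, CS, h2.trans ?_, h1.start, fun C hC => sol_paired hl hpsi h1 C hC⟩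
  have h3 : min (1 / 10 ^ 9) (xi / 2000) ≤ xi / 2000 := min_le_right _ _
  have h4 : 0 ≤ nn V := by unfold nn; positivity
  nlinarith

end Pool.H90BX
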