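import Pool.Agent.H90.BX.Defs

set_option autoImplicit false

/-! M1: reduction from arbitrary local labels to the labels Lb. -/

namespace Pool.H90BX

open Finset
open scoped Classical

namespace M1

variable {V : Type} [Fintype V] [DecidableEq V]

/-- an injective relabelling does not create larger classes -/
theorem inj_labels (S : Finset V) (n k : ℕ) (hk : k ≤ 4) (g : V → ℕ)
    (hg : (S.image g).card = k) :
    ∃ φ : ℕ → Lb, (∀ w ∈ S, (φ (g w)).val < k) ∧
      ∀ w ∈ S, ∀ w' ∈ S, φ (g w) = φ (g w') → g w = g w' := by
  let e := (S.image g).equivFin
  have hk' : (S.image g).card ≤ 4 := by omega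
  refine ⟨fun c => if h : c ∈ S.image g then Fin.castLE hk' (e ⟨c, h⟩) else 0, ?_, ?_⟩
  · intro w hw
    have h : g w ∈ S.image g := mem_image_of_mem g hw
    simp only [dif_pos h]
    have := (e ⟨g w, h⟩).isLt
    simpa [hg] using this
  · intro w hw w' hw' hh
    have h : g w ∈ S.image g := mem_image_of_mem g hw
    have h' : g w' ∈ S.image g := mem_image_of_mem g hw'
    simp only [dif_pos h, dif_pos h'] at hh
    have h2 := Fin.castLE_injective _ hh
    have h3 := e.injective h2
    exact congrArg Subtype.val h3

theorem fiber_le (S : Finset V) (g : V → ℕ) (φ : ℕ → Lb)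
    (hφ : ∀ w ∈ S, ∀ w' ∈ S, φ (g w) = φ (g w') → g w = g w') (i : Lb) :
    ∃ c, S.filter (fun w => φ (g w) = i) ⊆ S.filter (fun w => g w = c) := by
  by_cases he : (S.filter (fun w => φ (g w) = i)).Nonempty
  · obtain ⟨w0, h0⟩ := he
    rw [mem_filter] at h0
    refine ⟨g w0, fun w hw => ?_⟩
    rw [mem_filter] at hw ⊢
    exact ⟨hw.1, hφ w hw.1 w0 h0.1 (hw.2.trans h0.2.symm)⟩
  · rw [not_nonempty_iff_eq_empty] at he
    exact ⟨0, by rw [he]; exact empty_subset _⟩

/-- the classes of one vertex can be merged to at most three classes of size at most n/2 - 1, or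
there are four equal classes -/
theorem merge_labels (S : Finset V) (n : ℕ) (hS : S.card + 1 = n) (k : ℕ) :
    ∀ g : V → ℕ, (S.image g).card = k →
      (∀ c, 2 * (S.filter (fun w => g w = c)).card + 2 ≤ n) →
      ∃ φ : ℕ → Lb, ((S.filter (fun w => φ (g w) = 3)).card = 0 ∧
          ∀ i, 2 * (S.filter (fun w => φ (g w) = i)).card + 2 ≤ n) ∨
        (∀ i, 4 * (S.filter (fun w => φ (g w) = i)).card + 1 = n) := by
  induction k with
  | zero =>
    intro g hg hc
    refine ⟨fun _ => 0, Or.inl ?_⟩
    have hS0 : S = ∅ := by
      rw [card_eq_zero, image_eq_empty] at hg; exact hg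
    subst hS0
    refine ⟨by simp, fun i => ?_⟩
    have := hc 0
    simpa using this
  | succ k ih =>
    intro g hg hc
    by_cases hk : k + 1 ≤ 3
    · obtain ⟨φ, h1, h2⟩ := inj_labels S n (k + 1) (by omega) g hg
      refine ⟨φ, Or.inl ⟨?_, fun i => ?_⟩⟩
      · rw [card_eq_zero, filter_eq_empty_iff]
        intro w hw h
        have := h1 w hw
        rw [h] at this
        have h3 : (3 : Lb).val = 3 := rfl
        omega
      · obtain ⟨c, hcc⟩ := fiber_le S g φ h2 i
        have := card_le_card hcc
        have := hc c
        omega
    · push Not at hk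
      -- a pair of colours with minimal total size
      let T := S.image g
      let f : ℕ → ℕ := fun c => (S.filter (fun w => g w = c)).card
      have hne : (T.offDiag).Nonempty := by
        rw [← card_pos, offDiag_card]
        have : T.card = k + 1 := hg
        rw [this]
        have : (k + 1) * (k + 1) - (k + 1) = (k + 1) * k := by
          rw [Nat.mul_succ]; omega
        rw [this]; exact Nat.mul_pos (by omega) (by omega)
      obtain ⟨⟨a, b⟩, hab, hmin⟩ := exists_min_image T.offDiag (fun p => f p.1 + f p.2) hne
      rw [mem_offDiag] at hab
      obtain ⟨ha, hb, hne'⟩ := hab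
      simp only at ha hb hne'
      by_cases hm : 2 * (f a + f b) + 2 ≤ n
      · -- merge b into a
        let g' : V → ℕ := fun w => if g w = b then a else g w
        have himg : S.image g' = T.erase b := by
          ext c
          simp only [mem_image, mem_erase, g']
          constructor
          · rintro ⟨w, hw, rfl⟩
            split_ifs with h
            · exact ⟨hne', ha⟩
            · exact ⟨h, mem_image_of_mem g hw⟩
          · rintro ⟨h1, h2⟩
            obtain ⟨w, hw, rfl⟩ := mem_image.1 h2
            exact ⟨w, hw, by rw [if_neg h1]⟩
        have hcard : (S.image g').card = k := by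
          rw [himg, card_erase_of_mem hb]
          have : T.card = k + 1 := hg
          omega
        have hc' : ∀ c, 2 * (S.filter (fun w => g' w = c)).card + 2 ≤ n := by
          intro c
          by_cases hca : c = a
          · subst hca
            have : S.filter (fun w => g' w = c) ⊆
                S.filter (fun w => g w = c) ∪ S.filter (fun w => g w = b) := by
              intro w hw
              rw [mem_filter] at hw
              rw [mem_union, mem_filter, mem_filter]
              by_cases h : g w = b
              · exact Or.inr ⟨hw.1, h⟩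
              · left; refine ⟨hw.1, ?_⟩
                have := hw.2
                simp only [g', if_neg h] at this
                exact this
            have h1 := card_le_card this
            have h2 := card_union_le (S.filter (fun w => g w = c)) (S.filter (fun w => g w = b))
            have h3 : (S.filter (fun w => g w = c)).card = f c := rfl
            have h4 : (S.filter (fun w => g w = b)).card = f b := rfl
            omega
          · have : S.filter (fun w => g' w = c) ⊆ S.filter (fun w => g w = c) := by
              intro w hw
              rw [mem_filter] at hw ⊢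
              refine ⟨hw.1, ?_⟩
              have h5 := hw.2
              simp only [g'] at h5
              split_ifs at h5 with h
              · exact absurd h5.symm hca
              · exact h5
            have h1 := card_le_card this
            have := hc c
            omega
        obtain ⟨φ, hφ⟩ := ih g' hcard hc'
        refine ⟨fun c => φ (if c = b then a else c), ?_⟩
        exact hφ
      · -- four equal classes
        push Not at hm
        have hTc : T.card = k + 1 := hg
        -- two more colours
        have hcd : 2 ≤ ((T.erase a).erase b).card := by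
          rw [card_erase_of_mem (mem_erase.2 ⟨Ne.symm hne', hb⟩), card_erase_of_mem ha]
          omega
        obtain ⟨c, d, hcT, hdT, hcd'⟩ : ∃ c d, c ∈ (T.erase a).erase b ∧ d ∈ (T.erase a).erase b ∧
            c ≠ d := by
          obtain ⟨c, hc1, d, hd1, h⟩ := one_lt_card.1 (by omega : 1 < ((T.erase a).erase b).card)
          exact ⟨c, d, hc1, hd1, h⟩
        rw [mem_erase, mem_erase] at hcT hdT
        obtain ⟨hcb, hca, hcT⟩ := hcT
        obtain ⟨hdb, hda, hdT⟩ := hdT
        have m1 := hmin (c, d) (mem_offDiag.2 ⟨hcT, hdT, hcd'⟩)
        have m2 := hmin (a, c) (mem_offDiag.2 ⟨ha, hcT, Ne.symm hca⟩)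
        have m3 := hmin (a, d) (mem_offDiag.2 ⟨ha, hdT, Ne.symm hda⟩)
        have m4 := hmin (b, c) (mem_offDiag.2 ⟨hb, hcT, Ne.symm hcb⟩)
        have m5 := hmin (b, d) (mem_offDiag.2 ⟨hb, hdT, Ne.symm hdb⟩)
        simp only at m1 m2 m3 m4 m5
        -- the sum over all colours
        have hsum : S.card = ∑ c ∈ T, f c :=
          card_eq_sum_card_fiberwise (fun w hw => mem_image_of_mem g hw)
        have hpos : ∀ c ∈ T, 1 ≤ f c := by
          intro c hc
          obtain ⟨w, hw, rfl⟩ := mem_image.1 hc
          exact card_pos.2 ⟨w, mem_filter.2 ⟨hw, rfl⟩⟩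
        have hsub : ({a, b, c, d} : Finset ℕ) ⊆ T := by
          intro x hx
          simp only [mem_insert, mem_singleton] at hx
          rcases hx with rfl | rfl | rfl | rfl <;> assumption
        have hfour : ∑ x ∈ ({a, b, c, d} : Finset ℕ), f x = f a + f b + f c + f d := by
          rw [sum_insert, sum_insert, sum_insert, sum_singleton]
          · ring
          · simpa using hcd'
          · simp [Ne.symm hcb, Ne.symm hdb]
          · simp [hne', Ne.symm hca, Ne.symm hda]
        have hsplit : ∑ c ∈ T, f c = ∑ x ∈ T \ {a, b, c, d}, f x + (f a + f b + f c + f d) := by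
          rw [← hfour, sum_sdiff hsub]
        have hrest : (T \ {a, b, c, d}).card ≤ ∑ x ∈ T \ {a, b, c, d}, f x := by
          have := card_nsmul_le_sum (T \ {a, b, c, d}) f 1
            (fun x hx => hpos x (mem_sdiff.1 hx).1)
          simpa using this
        have hk4 : T ⊆ {a, b, c, d} := by
          rw [← sdiff_eq_empty_iff_subset, ← card_eq_zero]
          omega
        have hT4 : T.card ≤ 4 := (card_le_card hk4).trans (by
          refine (card_insert_le _ _).trans ?_
          refine Nat.add_le_add_right ((card_insert_le _ _).trans ?_) 1
          refine Nat.add_le_add_right ((card_insert_le _ _).trans ?_) 1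
          simp)
        have hrest0 : ∑ x ∈ T \ {a, b, c, d}, f x = 0 := by
          have : T \ {a, b, c, d} = ∅ := sdiff_eq_empty_iff_subset.2 hk4
          rw [this, sum_empty]
        have hall : f a = f b ∧ f c = f a ∧ f d = f a ∧ 4 * f a + 1 = n := by
          refine ⟨?_, ?_, ?_, ?_⟩ <;> omega
        obtain ⟨φ, h1, h2⟩ := inj_labels S n (k + 1) (by omega) g hg
        refine ⟨φ, Or.inr fun i => ?_⟩
        -- the classes of φ are exactly four and cover S
        have hle : ∀ i, (S.filter (fun w => φ (g w) = i)).card ≤ f a := by
          intro i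
          obtain ⟨c', hcc⟩ := fiber_le S g φ h2 i
          have h3 := card_le_card hcc
          by_cases hc' : c' ∈ T
          · have h4 := hk4 hc'
            simp only [mem_insert, mem_singleton] at h4
            have h5 : (S.filter (fun w => g w = c')).card = f c' := rfl
            rcases h4 with rfl | rfl | rfl | rfl <;> omega
          · have : S.filter (fun w => g w = c') = ∅ := by
              rw [filter_eq_empty_iff]
              intro w hw h
              exact hc' (h ▸ mem_image_of_mem g hw)
            rw [this, card_empty] at h3
            omega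
        have htot : S.card = ∑ i : Lb, (S.filter (fun w => φ (g w) = i)).card :=
          card_eq_sum_card_fiberwise (fun w _ => mem_univ _)
        rw [Fin.sum_univ_four] at htot
        have l0 := hle 0
        have l1 := hle 1
        have l2 := hle 2
        have l3 := hle 3
        have hi : i = 0 ∨ i = 1 ∨ i = 2 ∨ i = 3 := by
          revert i; decide
        have : (S.filter (fun w => φ (g w) = i)).card = f a := by
          rcases hi with rfl | rfl | rfl | rfl <;> omega
        omega

end M1

/-- reduction of arbitrary local labels -/
theorem reduce {V : Type} [Fintype V] [DecidableEq V] (hn : 3 ≤ Fintype.card V)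
    (κ : V → V → ℕ)
    (h : ∀ v c, (univ.filter (fun w => w ≠ v ∧ κ v w = c)).card + 1 ≤ Fintype.card V / 2) :
    ∃ l : LS V, Bdd l ∧ ∀ v w w', l v w ≠ l v w' → κ v w ≠ κ v w' := by
  have key : ∀ v, ∃ φ : ℕ → Lb, (((univ.erase v).filter (fun w => φ (κ v w) = 3)).card = 0 ∧
          ∀ i, 2 * ((univ.erase v).filter (fun w => φ (κ v w) = i)).card + 2 ≤ Fintype.card V) ∨
        (∀ i, 4 * ((univ.erase v).filter (fun w => φ (κ v w) = i)).card + 1 = Fintype.card V) := by
    intro v
    refine M1.merge_labels (univ.erase v) (Fintype.card V) ?_ _ (κ v) rfl ?_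
    · rw [card_erase_of_mem (mem_univ _), card_univ]; omega
    · intro c
      have h1 := h v c
      have h2 : (univ.erase v).filter (fun w => κ v w = c) =
          univ.filter (fun w => w ≠ v ∧ κ v w = c) := by
        ext w; simp
      rw [h2]; omega
  choose φ hφ using key
  have hcls : ∀ v i, cls (fun v w => φ v (κ v w)) v i =
      (univ.erase v).filter (fun w => φ v (κ v w) = i) := by
    intro v i; ext w; simp [cls]
  refine ⟨fun v w => φ v (κ v w), ⟨hn, fun v => ?_⟩, ?_⟩
  · rcases hφ v with h1 | h1
    · left
      refine ⟨?_, fun i => ?_⟩
      · unfold cnt; rw [hcls]; exact h1.1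
      · unfold cnt; rw [hcls]; exact h1.2 i
    · right
      intro i
      unfold cnt; rw [hcls]; exact h1 i
  · intro v w w' h1 h2
    refine h1 ?_
    show φ v (κ v w) = φ v (κ v w')
    rw [h2]

end Pool.H90BX
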