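import Pool.Agent.H90.BX.HJ
import Pool.Agent.H90.BX.M1
import Pool.Agent.H90.BX.EngineT
import Pool.Agent.H46.BX.Viol

set_option autoImplicit false

/-! Main assembly: every bounded label system on a large vertex set has a compatible Hamilton
cycle. -/

namespace Pool.H90BX

open Finset
open scoped Classical

theorem BT_mass {V : Type} [Fintype V] [DecidableEq V] {l : LS V} (hl : Bdd l)
    (hn : 17 ≤ Fintype.card V) {r : ℕ} (part : V → Lb → Fin r) :
    ∑ v, ∑ i, ∑ j, (if BT l part v i j then mm l v i j else 0) ≤ trn l part := by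
  unfold trn
  refine sum_le_sum fun v _ => ?_
  by_cases hv : part v (mx l v) ≠ part v (md l v)
  · rw [if_pos hv]
    have h1 : ∑ i, ∑ j, (if BT l part v i j then mm l v i j else 0) =
        mm l v (md l v) (mn l v) + mm l v (mn l v) (md l v) := by
      have e : ∀ i j, (if BT l part v i j then mm l v i j else 0) =
          (if i = md l v then (if j = mn l v then mm l v (md l v) (mn l v) else 0) else 0) +
          (if i = mn l v then (if j = md l v then mm l v (mn l v) (md l v) else 0) else 0) := by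
        intro i j
        have hne := md_ne_mn l v
        unfold BT
        by_cases h1 : i = md l v
        · have h2 : i ≠ mn l v := fun h => hne (h1.symm.trans h)
          by_cases h3 : j = mn l v
          · subst h1; subst h3; simp [hv, hne]
          · simp [h1, h3, hne, hv]
        · by_cases h2 : i = mn l v
          · by_cases h3 : j = md l v
            · simp [h1, h2, h3, hv, hne.symm]
            · simp [h2, h3, hne.symm]
          · simp [h1, h2]
      simp_rw [e, sum_add_distrib]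
      simp
    rw [h1]
    rcases hl.2 v with h | h
    · have h4 := not_T3_T4 hl h
      have hml : ml l v = 3 := by
        by_contra hne
        have h5 := T3_ml h
        have h6 := T3_mn_pos h
        have h7 := h.1
        rcases lab_cases l v 3 with h8 | h8 | h8 | h8
        · have := cnt_md_le l v; have := cnt_mn_le l v; rw [h8] at h7; omega
        · have := cnt_mn_le l v; rw [h8] at h7; omega
        · rw [h8] at h7; omega
        · exact hne h8.symm
      have key : ∀ a b c : Lb, a ≠ b → a ≠ c → b ≠ c → a ≠ 3 → b ≠ 3 → c ≠ 3 →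
          third a b = c := by decide
      have a1 : mx l v ≠ 3 := by rw [← hml]; exact mx_ne_ml l v
      have a2 : md l v ≠ 3 := by rw [← hml]; exact md_ne_ml l v
      have a3 : mn l v ≠ 3 := by rw [← hml]; exact mn_ne_ml l v
      unfold mm
      rw [if_neg (md_ne_mn l v), if_neg h4, if_neg (by simp [a2, a3]),
        if_neg (md_ne_mn l v).symm, if_neg h4, if_neg (by simp [a2, a3]),
        key _ _ _ (md_ne_mn l v) (mx_ne_md l v).symm (mx_ne_mn l v).symm a2 a3 a1,
        key _ _ _ (md_ne_mn l v).symm (mx_ne_mn l v).symm (mx_ne_md l v).symm a3 a2 a1]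
      linarith
    · unfold mm
      rw [if_neg (md_ne_mn l v), if_pos h, if_neg (md_ne_mn l v).symm, if_pos h, T4_cntR h]
      have := NN_pos hl v
      linarith
  · rw [if_neg hv]
    refine le_of_eq (sum_eq_zero fun i _ => sum_eq_zero fun j _ => ?_)
    rw [if_neg]
    unfold BT
    exact fun h => hv h.1

/-- MAIN THEOREM for label systems -/
theorem large_labels : ∃ n0 : ℕ, ∀ (V : Type) [Fintype V] [DecidableEq V],
    n0 ≤ Fintype.card V → ∀ l : LS V, Bdd l → Ham l := by
  -- the engine constants as functions of t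
  have hc2 : 0 < c2 := by unfold c2; positivity
  have hth : 0 < th := by unfold th; positivity
  have hE : ∀ t : ℝ, ∃ xi > (0 : ℝ), ∃ n0 : ℕ, 0 < t → ∀ (V : Type) [Fintype V] [DecidableEq V],
      n0 ≤ Fintype.card V → ∀ l : LS V, Bdd l →
      ∀ (BadV : Finset V) (BadE : V → V → Prop) (BadT : V → Lb → Lb → Prop)
        (R : V → Lb → Lb) (d0 d1 : V → Lb),
      (∀ v w, BadE v w → BadE w v) → (∀ v i j, BadT v i j → BadT v j i) →
      BadSmall l xi BadV BadE BadT → (∀ v i, R v i ≠ i) → (∀ v, d0 v ≠ d1 v) →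
      ∀ CS : Conf V, Start l BadV d0 d1 CS →
      (∀ C : Conf V, Ext l BadV BadE BadT R CS C →
        Paired C (fun a b => Joinable l (c1f t) (etaf t) (Kf t) (C.st a, {C.lab a})
          (C.st b, {C.lab b}))) → Ham l := by
    intro t
    by_cases ht : 0 < t
    · have h1 : 0 < c1f t := by
        unfold c1f
        have : 0 < min t c2 := lt_min ht hc2
        positivity
      have h2 : 0 < etaf t := by
        unfold etaf
        exact lt_min (by positivity) (by positivity)
      obtain ⟨xi, hxi, n0, h⟩ := engine (c1f t) (etaf t) h1 h2 (Kf t)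
      exact ⟨xi, hxi, n0, fun _ => h⟩
    · exact ⟨1, one_pos, 0, fun h => absurd h ht⟩
  choose xi hxi nE hE using hE
  have hS : ∀ (t : ℝ) (r : ℕ), ∃ s > (0 : ℝ), ∃ n0 : ℕ, ∀ (V : Type) [Fintype V] [DecidableEq V],
      n0 ≤ Fintype.card V → ∀ l : LS V, Bdd l →
      ∀ (psi : Fin r → Fin r) (part : V → Lb → Fin r), (∀ a, psi (psi a) = a) →
      irr l psi part ≤ s ^ 2 * nn V ^ 2 → trn l part ≤ s ^ 2 * nn V ^ 2 →
      ∃ (BadV : Finset V) (CS : Conf V), (BadV.card : ℝ) ≤ xi t * nn V ∧
        Start l BadV (mx l) (md l) CS ∧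
        ∀ C : Conf V, Ext l BadV (fun v w => ¬ Reg l psi part v w) (BT l part) (Rl l) CS C →
          Paired C (fun a b => ∃ A, Act l psi part a.1 (C.lab a) A ∧
            Act l psi part b.1 (C.lab b) (psi A)) :=
    fun t r => balanced_start' r (xi t) (hxi t)
  choose s hs nS hS using hS
  let R : ℕ := ⌊1 / th⌋₊
  have hne : (range (R + 1)).Nonempty := ⟨0, by simp⟩
  let sm : ℝ → ℝ := fun t => (range (R + 1)).inf' hne (s t)
  have hsm : ∀ t, 0 < sm t := by
    intro t
    rw [Finset.lt_inf'_iff]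
    exact fun r _ => hs t r
  let F : ℝ → ℝ := fun t => min (sm t ^ 2 / 18) (xi t / 18)
  have hF : ∀ t > 0, 0 < F t := fun t _ =>
    lt_min (by have := hsm t; positivity) (by have := hxi t; positivity)
  obtain ⟨Ts, hTs, nP, hP⟩ := parts F hF
  let nT : ℕ := Ts.sup (fun t => nE t + (range (R + 1)).sup (nS t))
  refine ⟨nT + nP + 17, ?_⟩
  intro V _ _ hn l hl
  obtain ⟨t, htT, r, hr, psi, part, hpsi, hviol, hjoin⟩ := hP V (by omega) l hl
  have ht := hTs t htT
  have hrR : r ∈ range (R + 1) := by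
    rw [mem_range]
    have : r ≤ R := Nat.le_floor hr
    omega
  have hnT : nE t + (range (R + 1)).sup (nS t) ≤ nT :=
    Finset.le_sup (f := fun t => nE t + (range (R + 1)).sup (nS t)) htT
  have hnS : nS t r ≤ (range (R + 1)).sup (nS t) := Finset.le_sup (f := nS t) hrR
  have hn17 : 17 ≤ Fintype.card V := by omega
  obtain ⟨v0⟩ : Nonempty V := Fintype.card_pos_iff.1 (by omega)
  have hNpos := NN_pos hl v0
  have hnpos := nn_pos hl v0
  have hNn : NN V ≤ nn V := by rw [nn_eq]; linarith
  have hsle : sm t ≤ s t r := Finset.inf'_le _ hrR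
  have hF1 : F t ≤ sm t ^ 2 / 18 := min_le_left _ _
  have hF2 : F t ≤ xi t / 18 := min_le_right _ _
  have hs2 : sm t ^ 2 ≤ s t r ^ 2 := pow_le_pow_left₀ (hsm t).le hsle 2
  have hnN : nn V * NN V ≤ nn V ^ 2 := by nlinarith
  have hnN0 : 0 ≤ nn V * NN V := by positivity
  have hv0 : 0 ≤ F t := (hF t ht).le
  have hbound : ∀ c : ℝ, 0 ≤ c → c * viol l psi part * (nn V * NN V) ≤ c * F t * nn V ^ 2 := by
    intro c hc
    have h1 : c * viol l psi part ≤ c * F t := mul_le_mul_of_nonneg_left hviol hc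
    calc c * viol l psi part * (nn V * NN V) ≤ c * F t * (nn V * NN V) :=
          mul_le_mul_of_nonneg_right h1 hnN0
      _ ≤ c * F t * nn V ^ 2 := mul_le_mul_of_nonneg_left hnN (by positivity)
  have hirr := (Fl46.irr_le (psi := psi) (part := part) hl hn17).trans (hbound 9 (by norm_num))
  have htrn := (Fl46.trn_le (psi := psi) (part := part) hl hn17 hpsi).trans
    (hbound 18 (by norm_num))
  have hn2 : 0 ≤ nn V ^ 2 := by positivity
  have hirr' : irr l psi part ≤ s t r ^ 2 * nn V ^ 2 := by nlinarith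
  have htrn' : trn l part ≤ s t r ^ 2 * nn V ^ 2 := by nlinarith
  obtain ⟨BadV, CS, hB, hst, hpair⟩ := hS t r V (by omega) l hl psi part hpsi hirr' htrn'
  refine hE t ht V (by omega) l hl BadV (fun v w => ¬ Reg l psi part v w) (BT l part) (Rl l)
    (mx l) (md l) ?_ ?_ ⟨hB, ?_, ?_⟩ (Rl_ne l) (mx_ne_md l) CS hst ?_
  · intro v w h h'
    exact h (Reg_symm hpsi h')
  · intro v i j h
    exact ⟨h.1, h.2.symm.imp (fun h => ⟨h.2, h.1⟩) (fun h => ⟨h.2, h.1⟩)⟩
  · have h1 : irr l psi part ≤ xi t * nn V ^ 2 := by nlinarith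
    unfold irr at h1
    convert h1
  · have h1 : trn l part ≤ xi t * nn V ^ 2 := by nlinarith
    exact (BT_mass hl hn17 part).trans h1
  · intro C hC
    obtain ⟨p, hp⟩ := hpair C hC
    refine ⟨p, fun a ha => ?_⟩
    obtain ⟨h1, h2, h3, A, h4, h5⟩ := hp a ha
    refine ⟨h1, h2, h3, ?_⟩
    exact hjoin a.1 (p a).1 (C.lab (fl a)) (C.lab (fl (p a))) (C.lab a) (C.lab (p a)) A
      (hC.ok.lab_ne a).symm (hC.ok.lab_ne (p a)).symm h4 h5

/-- MAIN THEOREM: arbitrary local labels (in particular colourings: κ v w = κ w v), n large -/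
theorem large_local : ∃ n0 : ℕ, ∀ (V : Type) [Fintype V] [DecidableEq V],
    n0 ≤ Fintype.card V → ∀ κ : V → V → ℕ,
    (∀ v c, (univ.filter (fun w => w ≠ v ∧ κ v w = c)).card + 1 ≤ Fintype.card V / 2) →
    ∃ f : ℕ → V, (∀ i, f (i + Fintype.card V) = f i) ∧
      (∀ i j, i < Fintype.card V → j < Fintype.card V → f i = f j → i = j) ∧
      ∀ i, κ (f (i + 1)) (f i) ≠ κ (f (i + 1)) (f (i + 2)) := by
  obtain ⟨n0, h⟩ := large_labels
  refine ⟨n0 + 3, ?_⟩
  intro V _ _ hn κ hκ
  obtain ⟨l, hl, h1⟩ := reduce (by omega) κ hκ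
  obtain ⟨f, hf1, hf2, hf3⟩ := h V (by omega) l hl
  exact ⟨f, hf1, hf2, fun i => h1 _ _ _ (hf3 i)⟩

end Pool.H90BX
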