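import Pool.Agent.H46.BX.Flow

set_option autoImplicit false

/-! C: the parts theorem with the joining lemma. -/

namespace Pool.H90BX

open Finset
open scoped Classical

/-- the absolute constants: c3 = 1/32000, C = 17, c2 = c3^2/(2C), th = c2/40 -/
noncomputable def c2 : ℝ := (1 / 32000) ^ 2 / 34
noncomputable def th : ℝ := c2 / 40

/-- threshold for good edges, as a function of tau -/
noncomputable def c1f (t : ℝ) : ℝ := (min t c2 / 16) ^ 3 / 289
noncomputable def etaf (t : ℝ) : ℝ := min (t / 68) (c2 / 300)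
noncomputable def Kf (t : ℝ) : ℕ := ⌈68 / t⌉₊ + 1

/-- W mass of the pairs of states in non-dual parts -/
noncomputable def viol {V : Type} [Fintype V] [DecidableEq V] {r : ℕ} (l : LS V)
    (psi : Fin r → Fin r) (part : V → Lb → Fin r) : ℝ :=
  ∑ s : St V, ∑ t : St V, if part t.1 t.2 ≠ psi (part s.1 s.2) then W l s t else 0

section aux

open Pool.Agent.H46.BE (Fl)
open Fl46

variable {V : Type} [Fintype V] [DecidableEq V] {l : LS V}

private theorem c2_pos : 0 < c2 := by
  unfold c2
  positivity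

private theorem c2_lt : c2 < 1 / 34 := by
  unfold c2
  norm_num

/-- an acting token has many good partners in the dual part -/
private theorem act_mass (hb : Bdd l) (hn : 17 ≤ Fintype.card V) {r : ℕ} {psi : Fin r → Fin r}
    {part : V → Lb → Fin r} {u : V} {k i : Lb} {A : Fin r} (hki : k ≠ i)
    (h : Act l psi part u i A) {c : ℝ} (hc0 : 0 ≤ c) (hc : c ≤ c2) :
    c2 ≤ (flow hb hn).m ((Pool.Agent.H46.BE.cls (fun s : St V => part s.1 s.2) (psi A)).filter
      fun y => y ∈ univ.filter (JG l c ((u, k), {i}))) := by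
  have hn' : (17 : ℝ) ≤ nn V := by
    unfold nn
    exact_mod_cast hn
  have hNn : NN V = nn V - 1 := rfl
  have hN : (0 : ℝ) < NN V := by linarith
  let S : Finset V := univ.filter fun w : V => w ≠ u ∧ l u w = i ∧
    ∃ k, k ≠ l w u ∧ (k = mx l w ∨ k = md l w) ∧ part w k = psi A
  have hS : nn V / 8000 ≤ (S.card : ℝ) := h
  have hmem : ∀ w ∈ S, w ≠ u ∧ l u w = i ∧
    ∃ k, k ≠ l w u ∧ (k = mx l w ∨ k = md l w) ∧ part w k = psi A := fun w hw =>
    (Finset.mem_filter.1 hw).2
  let kap : V → Lb := fun w =>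
    if h : ∃ k, k ≠ l w u ∧ (k = mx l w ∨ k = md l w) ∧ part w k = psi A then h.choose else 0
  have hkap : ∀ w ∈ S, kap w ≠ l w u ∧ (kap w = mx l w ∨ kap w = md l w) ∧
      part w (kap w) = psi A := by
    intro w hw
    have h1 := (hmem w hw).2.2
    have h2 : kap w = h1.choose := dif_pos h1
    rw [h2]
    exact h1.choose_spec
  let Y : Finset (St V) := S.image fun w => (w, kap w)
  have hY : ∀ y ∈ Y, y.1 ∈ S ∧ y.2 = kap y.1 := by
    intro y hy
    obtain ⟨w, hw, rfl⟩ := Finset.mem_image.1 hy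
    exact ⟨hw, rfl⟩
  have hYm : 1 / 32000 ≤ (flow hb hn).m Y := by
    have h1 : (flow hb hn).m Y = ∑ w ∈ S, pi l (w, kap w) := by
      unfold Fl.m
      refine Finset.sum_image fun a _ b _ hab => ?_
      exact congrArg Prod.fst hab
    rw [h1]
    have h2 : ∀ w ∈ S, 1 / (4 * nn V) ≤ pi l (w, kap w) := by
      intro w hw
      unfold pi
      rw [div_le_div_iff₀ (by linarith) (mul_pos (by linarith) hN)]
      have h3 : NN V ≤ 4 * cnt l w (kap w) := by
        rcases (hkap w hw).2.1 with h4 | h4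
        · rw [h4]
          exact cnt_mx_ge hb w
        · rw [h4]
          exact cnt_md_ge hb w
      have h5 := mul_le_mul_of_nonneg_left h3 (by linarith : 0 ≤ nn V)
      simp only
      linarith
    refine le_trans ?_ (Finset.sum_le_sum h2)
    rw [Finset.sum_const, nsmul_eq_mul, mul_one_div, le_div_iff₀ (by linarith)]
    linarith
  have hYJ : ∀ y ∈ Y, (flow hb hn).J (u, k) y := by
    intro y hy
    obtain ⟨h1, h2⟩ := hY y hy
    obtain ⟨h3, h4, _⟩ := hmem y.1 h1
    refine ⟨fun h => h3 h.symm, ?_, ?_⟩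
    · change l u y.1 ≠ k
      rw [h4]
      exact hki.symm
    · change l y.1 u ≠ y.2
      rw [h2]
      exact (hkap y.1 h1).1.symm
  have hsq : c2 ≤ (flow hb hn).m Y ^ 2 / (2 * 17) := by
    unfold c2
    have h1 := pow_le_pow_left₀ (by norm_num) hYm 2
    norm_num at h1 ⊢
    linarith
  refine (hsq.trans ((flow hb hn).nbr (by norm_num) (u, k) Y hYJ hc0 (hc.trans hsq))).trans
    ((flow hb hn).m_mono fun y hy => ?_)
  rw [Finset.mem_filter] at hy
  obtain ⟨h1, h2⟩ := hY y hy.1
  rw [Finset.mem_filter, Pool.Agent.H46.BE.mem_cls, Finset.mem_filter]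
  refine ⟨?_, Finset.mem_univ y, hYJ y hy.1, ?_, hy.2⟩
  · rw [h2]
    exact (hkap y.1 h1).2.2
  · rw [Finset.mem_singleton]
    exact (hmem y.1 h1).2.1

end aux

open Fl46 in
theorem parts (F : ℝ → ℝ) (hF : ∀ t > 0, 0 < F t) :
    ∃ Ts : Finset ℝ, (∀ t ∈ Ts, 0 < t) ∧ ∃ n0 : ℕ, ∀ (V : Type) [Fintype V] [DecidableEq V],
      n0 ≤ Fintype.card V → ∀ l : LS V, Bdd l →
      ∃ t ∈ Ts, ∃ r : ℕ, (r : ℝ) ≤ 1 / th ∧ ∃ (psi : Fin r → Fin r) (part : V → Lb → Fin r),
        (∀ a, psi (psi a) = a) ∧ viol l psi part ≤ F t ∧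
        ∀ (u u' : V) (k k' i i' : Lb) (A : Fin r), k ≠ i → k' ≠ i' →
          Act l psi part u i A → Act l psi part u' i' (psi A) →
          Joinable l (c1f t) (etaf t) (Kf t) ((u, k), {i}) ((u', k'), {i'}) := by
  have hc2 := c2_pos
  have hc2' := c2_lt
  have hth : 0 < th := by
    unfold th
    linarith
  have hth40 : th = c2 / 40 := rfl
  let F' : ℝ → ℝ := fun t => min (min (F t * th / 5) (t / 2)) (th ^ 2 / 100)
  have hF' : ∀ t, 0 < t → 0 < F' t := by
    intro t ht
    exact lt_min (lt_min (div_pos (mul_pos (hF t ht) hth) (by norm_num)) (by linarith))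
      (by positivity)
  obtain ⟨Ts, hTs, hmain⟩ := Pool.Agent.H46.BE.parts hth (by linarith) hF'
  refine ⟨Ts, hTs, 17, ?_⟩
  intro V _ _ hn l hb
  obtain ⟨t, ht, r, p, hp⟩ := hmain 17 (St V) (flow hb hn)
  have ht0 := hTs t ht
  have he1 : F' t ≤ F t * th / 5 := (min_le_left _ _).trans (min_le_left _ _)
  have he2 : F' t ≤ t / 2 := (min_le_left _ _).trans (min_le_right _ _)
  have he3 : F' t ≤ th ^ 2 / 100 := min_le_right _ _
  have he0 := hF' t ht0
  have hsq : th ^ 2 ≤ th / 40 := by
    rw [sq]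
    have : th ≤ 1 / 40 := by linarith
    have := mul_le_mul_of_nonneg_left this hth.le
    linarith
  obtain ⟨psi, hpsi, hw⟩ := hp.invol (by norm_num) hth (by linarith) (by linarith)
    (by linarith) (by nlinarith)
  have hr : (r : ℝ) ≤ 1 / th := by
    rw [le_div_iff₀ hth, ← (flow hb hn).sum_m_cls' p]
    refine le_trans (le_of_eq ?_) (Finset.sum_le_sum fun j _ => hp.big j)
    rw [Finset.sum_const, Finset.card_univ, Fintype.card_fin, nsmul_eq_mul]
  refine ⟨t, ht, r, hr, psi, fun v k => p (v, k), hpsi, ?_, ?_⟩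
  · -- the violation
    have h1 : viol l psi (fun v k => p (v, k)) =
        ∑ j, (flow hb hn).w (Pool.Agent.H46.BE.cls p j)
          (univ \ Pool.Agent.H46.BE.cls p (psi j)) := by
      unfold viol Pool.Agent.H46.BE.Fl.w Pool.Agent.H46.BE.Fl.r
      rw [← Finset.sum_fiberwise_of_maps_to (s := univ) (t := univ) (g := p)
        (fun s _ => Finset.mem_univ (p s))]
      refine Finset.sum_congr rfl fun j _ => Finset.sum_congr rfl fun s hs => ?_
      rw [← Finset.sum_filter]
      refine Finset.sum_congr ?_ fun t _ => rfl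
      ext t
      rw [Finset.mem_filter, Finset.mem_sdiff, Pool.Agent.H46.BE.mem_cls]
      have h2 : p s = j := (Finset.mem_filter.1 hs).2
      change (t ∈ univ ∧ p t ≠ psi (p s)) ↔ _
      rw [h2]
    rw [h1]
    have h3 : ∑ j, (flow hb hn).w (Pool.Agent.H46.BE.cls p j)
        (univ \ Pool.Agent.H46.BE.cls p (psi j)) ≤ r * (5 * F' t) := by
      refine (Finset.sum_le_sum fun j _ => hw j).trans (le_of_eq ?_)
      rw [Finset.sum_const, Finset.card_univ, Fintype.card_fin, nsmul_eq_mul]
    refine h3.trans ?_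
    have h4 : (r : ℝ) * (5 * F' t) ≤ 1 / th * (5 * (F t * th / 5)) :=
      mul_le_mul hr (by linarith) (by linarith) (by positivity)
    refine h4.trans (le_of_eq ?_)
    field_simp
  · intro u u' k k' i i' A hki hki' hA hA'
    have hmin : 0 < min t c2 := lt_min ht0 hc2
    have hcc : 0 ≤ c1f t := by
      unfold c1f
      positivity
    have hcc2 : c1f t ≤ c2 := by
      unfold c1f
      have h1 : min t c2 / 16 ≤ c2 / 16 := by
        have := min_le_right t c2
        linarith
      have h2 := pow_le_pow_left₀ (by positivity) h1 3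
      have h3 : (c2 / 16) ^ 3 ≤ c2 := by
        have : c2 ^ 3 ≤ c2 := by
          have h4 : c2 ^ 2 ≤ 1 := by nlinarith
          calc c2 ^ 3 = c2 ^ 2 * c2 := by ring
            _ ≤ 1 * c2 := mul_le_mul_of_nonneg_right h4 hc2.le
            _ = c2 := one_mul _
        calc (c2 / 16) ^ 3 = c2 ^ 3 / 4096 := by ring
          _ ≤ c2 ^ 3 := by
              have : 0 ≤ c2 ^ 3 := by positivity
              linarith
          _ ≤ c2 := this
      have h5 : 0 ≤ (min t c2 / 16) ^ 3 := by positivity
      linarith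
    have hq : (flow hb hn).q (c1f t) ≤ min t c2 / 16 := by
      have h1 := (flow hb hn).good (by norm_num) hcc
      have h2 : (17 : ℝ) ^ 2 * c1f t = (min t c2 / 16) ^ 3 := by
        unfold c1f
        ring
      rw [h2] at h1
      exact le_of_pow_le_pow_left₀ (by norm_num) (by positivity) h1
    have hm1 : min t c2 ≤ t := min_le_left _ _
    have hm2 : min t c2 ≤ c2 := min_le_right _ _
    have heta : 0 ≤ etaf t := by
      unfold etaf
      exact le_min (by linarith) (by linarith)
    have heta1 : etaf t ≤ t / 68 := min_le_left _ _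
    have heta2 : etaf t ≤ c2 / 300 := min_le_right _ _
    have hK : 4 * 17 / t < (Kf t : ℝ) := by
      unfold Kf
      have h1 := Nat.le_ceil (68 / t)
      push_cast
      have h2 : (4 * 17 : ℝ) / t = 68 / t := by norm_num
      rw [h2]
      linarith
    have ha := act_mass hb hn (psi := psi) (part := fun v k => p (v, k)) hki hA hcc hcc2
    have hb' := act_mass hb hn (psi := psi) (part := fun v k => p (v, k)) hki' hA' hcc hcc2
    rw [hpsi A] at hb'
    obtain ⟨kk, hkk, hres⟩ := hp.join (by norm_num) hpsi hw hq heta ht0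
      (by linarith) (by linarith) (by linarith) (by linarith) (by linarith) (by linarith)
      hK A _ _ ha hb'
    refine ⟨kk, hkk, ?_⟩
    rw [flow_mass hb hn, flow_lay hb hn]
    exact hres

end Pool.H90BX
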