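import Pool.Agent.H90.BX.FDef
import Pool.Agent.H44.BX.Raise
import Pool.Agent.H59.BX.RW

set_option autoImplicit false

/-! Block R (exceptional set, tables, raising lemma). Paper J1, J2. -/

namespace Pool.H90BX

open Finset
open scoped Classical

variable {V : Type} [Fintype V] [DecidableEq V] {r : ℕ} {l : LS V} {psi : Fin r → Fin r}
  {part : V → Lb → Fin r} {val : Fin r → ℤ} {s : ℝ} {U E : Finset V} {K : Finset (Fin r)}

/-- the dual setting (h and psi h exchanged) -/
theorem FC.neg (h : FC l psi part val s U K) : FC l psi part (fun A => - val A) s U K :=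
  RA.fc_neg h

/-- existence of the exceptional set -/
theorem exists_EC (h : FC l psi part val s U K) : ∃ E, EC l psi part val s U E :=
  RA.exists_EC h

theorem EC.neg (h : EC l psi part val s U E) : EC l psi part (fun A => - val A) s U E :=
  RA.ec_neg h

/-- all vertices outside E are typical -/
theorem typ (h : FC l psi part val s U K) (hE : EC l psi part val s U E) (v : V) (hv : v ∉ E) :
    Typ l psi part v :=
  RA.typ h hE v hv

/-- table entries act -/
theorem tab_act (h : FC l psi part val s U K) (hE : EC l psi part val s U E) (u : V)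
    (t : Lb × Fin r) (ht : t ∈ Tab l psi part E u) : Act l psi part u t.1 t.2 :=
  RA.tab_act h hE u t ht

/-- table entries are in K -/
theorem tab_K (h : FC l psi part val s U K) (hE : EC l psi part val s U E) (u : V)
    (t : Lb × Fin r) (ht : t ∈ Tab l psi part E u) : t.2 ∈ K :=
  RA.tab_K h hE u t ht

/-- every table has entries for the labels mx and md -/
theorem tab_two (h : FC l psi part val s U K) (hE : EC l psi part val s U E) (u : V) :
    (∃ A, (mx l u, A) ∈ Tab l psi part E u) ∧ ∃ A, (md l u, A) ∈ Tab l psi part E u :=
  RA.tab_two h hE u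

/-- maximal modes exist -/
theorem exists_max (h : FC l psi part val s U K) (hE : EC l psi part val s U E) (u : V) :
    ∃ t, IsMax val (Tab l psi part E u) t :=
  RA.exists_max h hE u

/-- lower bound for the total value of the maximal modes -/
theorem W_lower (h : FC l psi part val s U K) (hE : EC l psi part val s U E)
    (M : V → (Lb × Fin r) × (Lb × Fin r)) (hM : ∀ u, IsMax val (Tab l psi part E u) (M u)) :
    - (9 * s * nn V) ≤ ((∑ u, mval val (M u) : ℤ) : ℝ) :=
  RA.W_lower h hE M hM

/-- RAISING LEMMA -/
theorem raise (h : FC l psi part val s U K) (hE : EC l psi part val s U E)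
    (M : V → (Lb × Fin r) × (Lb × Fin r)) (hM : ∀ u, IsMax val (Tab l psi part E u) (M u))
    (hW : ∑ u, mval val (M u) ≤ 0) (X : Finset V) (hX : X.card ≤ 4) (q : ℕ)
    (hq : (q : ℤ) ≤ - (∑ u, mval val (M u)) + 8) : Raises l val M X q :=
  H44.raise_aux h hE M hM (W_lower h hE M hM) hW X hX q hq

end Pool.H90BX
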